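import Mathlib

/-!
# Morphisms from the nerve of a poset to `Ex X`
-/

namespace Pool.Agent.H351R3

open CategoryTheory Simplicial Opposite PartialOrder

/-- nerves of posets -/
abbrev Nv : PartOrd.{0} ⥤ SSet.{0} := PartOrd.nerveFunctor.{0}

/-- posets of nonempty finite chains -/
noncomputable abbrev Ch : PartOrd.{0} ⥤ PartOrd.{0} := PartOrd.nonemptyFiniteChainsFunctor.{0}

/-- standard simplices as posets -/
abbrev Od : SimplexCategory ⥤ PartOrd.{0} := SimplexCategory.toPartOrd.{0}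

/-- the monotone map corresponding to a simplex of a nerve -/
def simplexHom (P : PartOrd.{0}) {n : SimplexCategoryᵒᵖ} (p : (Nv.obj P).obj n) :
    Od.obj n.unop ⟶ P :=
  PartOrd.ofHom
    { toFun := fun i => (p : ComposableArrows P n.unop.len).obj i.down
      monotone' := fun _ _ h => leOfHom
        ((p : ComposableArrows P n.unop.len).map (homOfLE h)) }

/-- the simplex of a nerve corresponding to a monotone map -/
def homSimplex (P : PartOrd.{0}) {n : SimplexCategoryᵒᵖ} (f : Od.obj n.unop ⟶ P) :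
    (Nv.obj P).obj n :=
  (show Monotone (fun i : Fin (n.unop.len + 1) => f.hom (ULift.up i)) from
    fun _ _ h => f.hom.monotone h).functor

lemma simplexHom_homSimplex (P : PartOrd.{0}) {n : SimplexCategoryᵒᵖ} (f : Od.obj n.unop ⟶ P) :
    simplexHom P (homSimplex P f) = f := rfl

lemma nerve_ext {P : PartOrd.{0}} {n : SimplexCategoryᵒᵖ} {p q : (Nv.obj P).obj n}
    (h : ∀ i, (p : ComposableArrows P n.unop.len).obj i =
      (q : ComposableArrows P n.unop.len).obj i) : p = q :=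
  nerve.ext_of_isThin (C := P) (funext h)

lemma homSimplex_simplexHom (P : PartOrd.{0}) {n : SimplexCategoryᵒᵖ} (p : (Nv.obj P).obj n) :
    homSimplex P (simplexHom P p) = p := nerve_ext (fun _ => rfl)

lemma simplexHom_map (P : PartOrd.{0}) {n m : SimplexCategoryᵒᵖ} (θ : n ⟶ m)
    (p : (Nv.obj P).obj n) :
    simplexHom P ((Nv.obj P).map θ p) = Od.map θ.unop ≫ simplexHom P p := rfl

lemma simplexHom_app {P Q : PartOrd.{0}} (g : P ⟶ Q) {n : SimplexCategoryᵒᵖ}
    (p : (Nv.obj P).obj n) :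
    simplexHom Q ((Nv.map g).app n p) = simplexHom P p ≫ g := rfl

lemma homSimplex_comp {P Q : PartOrd.{0}} (g : P ⟶ Q) {n : SimplexCategoryᵒᵖ}
    (f : Od.obj n.unop ⟶ P) :
    homSimplex Q (f ≫ g) = (Nv.map g).app n (homSimplex P f) := rfl

lemma homSimplex_precomp {P : PartOrd.{0}} {n m : SimplexCategoryᵒᵖ} (θ : n ⟶ m)
    (f : Od.obj n.unop ⟶ P) :
    homSimplex P (Od.map θ.unop ≫ f) = (Nv.obj P).map θ (homSimplex P f) := rfl

variable {X : SSet.{0}}

/-- the adjoint of a morphism out of the nerve of the poset of chains -/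
noncomputable def toEx {P : PartOrd.{0}} (F : Nv.obj (Ch.obj P) ⟶ X) : Nv.obj P ⟶ SSet.ex.obj X where
  app n := ↾fun p => ULift.up (Nv.map (Ch.map (simplexHom P p)) ≫ F)
  naturality n m θ := by
    ext p
    change ULift.up (Nv.map (Ch.map (simplexHom P ((Nv.obj P).map θ p))) ≫ F) =
      ULift.up (SimplexCategory.sd.map θ.unop ≫ (Nv.map (Ch.map (simplexHom P p)) ≫ F))
    rw [simplexHom_map, Functor.map_comp, Functor.map_comp, Category.assoc]
    rfl

lemma toEx_app {P : PartOrd.{0}} (F : Nv.obj (Ch.obj P) ⟶ X) {n : SimplexCategoryᵒᵖ}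
    (p : (Nv.obj P).obj n) :
    (toEx F).app n p = ULift.up (Nv.map (Ch.map (simplexHom P p)) ≫ F) := rfl

lemma toEx_nat {P Q : PartOrd.{0}} (g : P ⟶ Q) (F : Nv.obj (Ch.obj Q) ⟶ X) :
    toEx (Nv.map (Ch.map g) ≫ F) = Nv.map g ≫ toEx F := by
  ext n p
  change ULift.up (Nv.map (Ch.map (simplexHom P p)) ≫ Nv.map (Ch.map g) ≫ F) =
    ULift.up (Nv.map (Ch.map (simplexHom Q ((Nv.map g).app n p))) ≫ F)
  rw [simplexHom_app, Functor.map_comp, Functor.map_comp, Category.assoc]

/-! ### Order embeddings -/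

/-- order embeddings, as a property of morphisms -/
def IsEmb {P Q : PartOrd.{0}} (g : P ⟶ Q) : Prop := ∀ x y : P, g.hom x ≤ g.hom y → x ≤ y

lemma IsEmb.inj {P Q : PartOrd.{0}} {g : P ⟶ Q} (h : IsEmb g) {x y : P}
    (hxy : g.hom x = g.hom y) : x = y := le_antisymm (h _ _ hxy.le) (h _ _ hxy.ge)

lemma IsEmb.ch {P Q : PartOrd.{0}} {g : P ⟶ Q} (h : IsEmb g) : IsEmb (Ch.map g) := by
  intro a b hab x hx
  have h1 : g.hom x ∈ (NonemptyFiniteChains.map (X := P) a g.hom).finset :=
    (NonemptyFiniteChains.mem_map_iff (X := P) a g.hom _).2 ⟨x, hx, rfl⟩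
  have h2 : g.hom x ∈ (NonemptyFiniteChains.map (X := P) b g.hom).finset := hab h1
  obtain ⟨y, hy, hxy⟩ := (NonemptyFiniteChains.mem_map_iff (X := P) b g.hom _).1 h2
  have h3 : y = x := h.inj hxy
  subst h3
  exact hy

lemma ch_range {P Q : PartOrd.{0}} {g : P ⟶ Q} (h : IsEmb g) (c : Ch.obj Q)
    (hc : ∀ y ∈ (c : NonemptyFiniteChains Q).finset, ∃ x, g.hom x = y) :
    ∃ a : Ch.obj P, (Ch.map g).hom a = c := by
  classical
  let c' : NonemptyFiniteChains Q := c
  have hinj : Set.InjOn g.hom (g.hom ⁻¹' (c'.finset : Set Q)) := fun x _ y _ hxy => h.inj hxy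
  let a : NonemptyFiniteChains P :=
    { finset := c'.finset.preimage g.hom hinj
      nonempty := by
        obtain ⟨y, hy⟩ := c'.nonempty
        obtain ⟨x, hx⟩ := hc y hy
        refine ⟨x, ?_⟩
        rw [Finset.mem_preimage, hx]
        exact hy
      comparable := by
        rintro ⟨x, hx⟩ ⟨y, hy⟩
        rw [Finset.mem_preimage] at hx hy
        rcases c'.comparable ⟨_, hx⟩ ⟨_, hy⟩ with h1 | h1
        · exact Or.inl (h _ _ h1)
        · exact Or.inr (h _ _ h1) }
  refine ⟨a, ?_⟩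
  change NonemptyFiniteChains.map a g.hom = c'
  ext y
  rw [NonemptyFiniteChains.mem_map_iff]
  constructor
  · rintro ⟨x, hx, rfl⟩
    exact (Finset.mem_preimage (hf := hinj)).1 hx
  · intro hy
    obtain ⟨x, hx⟩ := hc y hy
    refine ⟨x, ?_, hx⟩
    rw [Finset.mem_preimage, hx]
    exact hy

lemma nv_inj {P Q : PartOrd.{0}} {g : P ⟶ Q} (h : IsEmb g) {n : SimplexCategoryᵒᵖ}
    {b b' : (Nv.obj P).obj n} (hb : (Nv.map g).app n b = (Nv.map g).app n b') : b = b' := by
  refine nerve_ext (fun i => h.inj ?_)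
  exact congrArg (fun z : (Nv.obj Q).obj n => (z : ComposableArrows Q n.unop.len).obj i) hb

lemma nv_range {P Q : PartOrd.{0}} {g : P ⟶ Q} (h : IsEmb g) {n : SimplexCategoryᵒᵖ}
    (c : (Nv.obj Q).obj n)
    (hc : ∀ i, ∃ x, g.hom x = (c : ComposableArrows Q n.unop.len).obj i) :
    ∃ b : (Nv.obj P).obj n, (Nv.map g).app n b = c := by
  choose b hb using hc
  have hmono : Monotone b := by
    intro i j hij
    refine h _ _ ?_
    rw [hb, hb]
    exact leOfHom ((c : ComposableArrows Q n.unop.len).map (homOfLE hij))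
  refine ⟨hmono.functor, nerve_ext (fun i => ?_)⟩
  exact hb i

/-- A chain is the image of a standard simplex. -/
lemma exists_emb (P : PartOrd.{0}) (A : NonemptyFiniteChains P) :
    ∃ (d : SimplexCategory) (q : Od.obj d ⟶ P), IsEmb q ∧
      ∀ x, x ∈ A.finset ↔ ∃ i, q.hom i = x := by
  classical
  let : LinearOrder A.finset :=
    { (inferInstance : PartialOrder A.finset) with
      le_total := A.comparable
      toDecidableLE := Classical.decRel _ }
  obtain ⟨d, hd⟩ : ∃ d, Fintype.card A.finset = d + 1 := by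
    have : Nonempty A.finset := A.nonempty.to_subtype
    exact ⟨Fintype.card A.finset - 1, (Nat.succ_pred_eq_of_pos Fintype.card_pos).symm⟩
  let e : Fin (d + 1) ≃o A.finset := monoEquivOfFin _ hd
  refine ⟨SimplexCategory.mk d, PartOrd.ofHom
    { toFun := fun i => (e i.down : P)
      monotone' := fun i j hij => e.monotone hij }, ?_, ?_⟩
  · intro x y hxy
    have h1 : e x.down ≤ e y.down := hxy
    have h2 : x.down ≤ y.down := e.le_iff_le.1 h1
    exact h2
  · intro x
    constructor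
    · intro hx
      refine ⟨ULift.up (e.symm ⟨x, hx⟩), ?_⟩
      change ((e (e.symm ⟨x, hx⟩) : A.finset) : P) = x
      rw [e.apply_symm_apply]
    · rintro ⟨i, rfl⟩
      exact (e i.down).2

/-- Factorisation through an embedding. -/
lemma exists_factor {P : PartOrd.{0}} {d n : SimplexCategory} {q : Od.obj d ⟶ P} (hq : IsEmb q)
    (p : Od.obj n ⟶ P) (h : ∀ i, ∃ j, q.hom j = p.hom i) :
    ∃ s : n ⟶ d, Od.map s ≫ q = p := by
  choose j hj using h
  refine ⟨SimplexCategory.Hom.mk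
    { toFun := fun i => (j (ULift.up i)).down
      monotone' := fun a b hab => ?_ }, ?_⟩
  · have h1 : j (ULift.up a) ≤ j (ULift.up b) := by
      refine hq _ _ ?_
      refine ((hj _).trans_le ?_).trans_eq (hj _).symm
      exact p.hom.monotone hab
    exact h1
  · refine PartOrd.ext (fun i => ?_)
    exact hj i

/-- the value at a morphism -/
def val {P : PartOrd.{0}} (f : Nv.obj P ⟶ SSet.ex.obj X) {d : SimplexCategory}
    (q : Od.obj d ⟶ P) : Nv.obj (Ch.obj (Od.obj d)) ⟶ X :=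
  ((f.app (op d) (homSimplex P q)) : ULift (SimplexCategory.sd.{0}.obj d ⟶ X)).down

lemma val_precomp {P : PartOrd.{0}} (f : Nv.obj P ⟶ SSet.ex.obj X) {d n : SimplexCategory}
    (q : Od.obj d ⟶ P) (s : n ⟶ d) :
    val f (Od.map s ≫ q) = Nv.map (Ch.map (Od.map s)) ≫ val f q := by
  have h := NatTrans.naturality_apply f s.op (homSimplex P (n := op d) q)
  have h2 := congrArg (fun z : ULift (SimplexCategory.sd.{0}.obj n ⟶ X) => z.down) h
  exact h2

/-- The value at a simplex only depends on its image. -/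
lemma val_wd {P : PartOrd.{0}} (f : Nv.obj P ⟶ SSet.ex.obj X) {d d' : SimplexCategory}
    {q : Od.obj d ⟶ P} {q' : Od.obj d' ⟶ P} (hq : IsEmb q) (hq' : IsEmb q')
    {n : SimplexCategoryᵒᵖ} (b : (Nv.obj (Ch.obj (Od.obj d))).obj n)
    (b' : (Nv.obj (Ch.obj (Od.obj d'))).obj n)
    (h : (Nv.map (Ch.map q)).app n b = (Nv.map (Ch.map q')).app n b') :
    (val f q).app n b = (val f q').app n b' := by
  -- the top chain
  let c : (Nv.obj (Ch.obj P)).obj n := (Nv.map (Ch.map q)).app n b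
  let A : NonemptyFiniteChains P :=
    (c : ComposableArrows (Ch.obj P) n.unop.len).obj (Fin.last _)
  obtain ⟨e, r, hr, hrange⟩ := exists_emb P A
  have hle : ∀ i, (c : ComposableArrows (Ch.obj P) n.unop.len).obj i ≤ A := fun i =>
    leOfHom ((c : ComposableArrows (Ch.obj P) n.unop.len).map (homOfLE (Fin.le_last i)))
  obtain ⟨b0, hb0⟩ : ∃ b0 : (Nv.obj (Ch.obj (Od.obj e))).obj n,
      (Nv.map (Ch.map r)).app n b0 = c := by
    refine nv_range hr.ch c (fun i => ch_range hr _ (fun y hy => ?_))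
    exact (hrange y).1 (hle i hy)
  have key : ∀ {d : SimplexCategory} {q : Od.obj d ⟶ P} (_ : IsEmb q)
      (b : (Nv.obj (Ch.obj (Od.obj d))).obj n) (_ : (Nv.map (Ch.map q)).app n b = c),
      (val f q).app n b = (val f r).app n b0 := by
    intro d q hq b hb
    have hA : A = (Ch.map q).hom ((b : ComposableArrows (Ch.obj (Od.obj d)) n.unop.len).obj
        (Fin.last _)) :=
      (congrArg (fun z : (Nv.obj (Ch.obj P)).obj n =>
        (z : ComposableArrows (Ch.obj P) n.unop.len).obj (Fin.last _)) hb).symm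
    obtain ⟨s, hs⟩ := exists_factor hq r (fun i => by
      have h1 : r.hom i ∈ A.finset := (hrange _).2 ⟨i, rfl⟩
      rw [hA] at h1
      obtain ⟨y, hy, hyq⟩ := (NonemptyFiniteChains.mem_map_iff (X := Od.obj d) _ q.hom _).1 h1
      exact ⟨y, hyq⟩)
    have h1 : b = (Nv.map (Ch.map (Od.map s))).app n b0 := by
      refine nv_inj hq.ch ?_
      rw [hb, ← hb0, ← hs, Functor.map_comp, Functor.map_comp]
      rfl
    rw [h1, ← hs, val_precomp]
    rfl
  rw [key hq b rfl, key hq' b' h.symm]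

lemma toEx_injective {P : PartOrd.{0}} :
    Function.Injective (toEx : (Nv.obj (Ch.obj P) ⟶ X) → (Nv.obj P ⟶ SSet.ex.obj X)) := by
  intro F G hFG
  ext n c
  let A : NonemptyFiniteChains P :=
    (c : ComposableArrows (Ch.obj P) n.unop.len).obj (Fin.last _)
  obtain ⟨e, r, hr, hrange⟩ := exists_emb P A
  have hle : ∀ i, (c : ComposableArrows (Ch.obj P) n.unop.len).obj i ≤ A := fun i =>
    leOfHom ((c : ComposableArrows (Ch.obj P) n.unop.len).map (homOfLE (Fin.le_last i)))
  obtain ⟨b0, hb0⟩ : ∃ b0 : (Nv.obj (Ch.obj (Od.obj e))).obj n,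
      (Nv.map (Ch.map r)).app n b0 = c := by
    refine nv_range hr.ch c (fun i => ch_range hr _ (fun y hy => ?_))
    exact (hrange y).1 (hle i hy)
  have h1 : Nv.map (Ch.map r) ≫ F = Nv.map (Ch.map r) ≫ G := by
    have h2 := congrArg (fun z : Nv.obj P ⟶ SSet.ex.obj X =>
      ((z.app (op e) (homSimplex P r)) : ULift (SimplexCategory.sd.{0}.obj e ⟶ X)).down) hFG
    exact h2
  rw [← hb0]
  exact congrArg (fun z : Nv.obj (Ch.obj (Od.obj e)) ⟶ X => z.app n b0) h1

lemma exists_rep {P : PartOrd.{0}} {n : SimplexCategoryᵒᵖ} (c : (Nv.obj (Ch.obj P)).obj n) :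
    ∃ (e : SimplexCategory) (r : Od.obj e ⟶ P) (_ : IsEmb r)
      (b0 : (Nv.obj (Ch.obj (Od.obj e))).obj n), (Nv.map (Ch.map r)).app n b0 = c := by
  let A : NonemptyFiniteChains P :=
    (c : ComposableArrows (Ch.obj P) n.unop.len).obj (Fin.last _)
  obtain ⟨e, r, hr, hrange⟩ := exists_emb P A
  have hle : ∀ i, (c : ComposableArrows (Ch.obj P) n.unop.len).obj i ≤ A := fun i =>
    leOfHom ((c : ComposableArrows (Ch.obj P) n.unop.len).map (homOfLE (Fin.le_last i)))
  refine ⟨e, r, hr, nv_range hr.ch c (fun i => ch_range hr _ (fun y hy => ?_))⟩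
  exact (hrange y).1 (hle i hy)

lemma toEx_surjective {P : PartOrd.{0}} :
    Function.Surjective (toEx : (Nv.obj (Ch.obj P) ⟶ X) → (Nv.obj P ⟶ SSet.ex.obj X)) := by
  intro f
  choose e r hr b0 hb0 using fun (n : SimplexCategoryᵒᵖ) (c : (Nv.obj (Ch.obj P)).obj n) =>
    exists_rep c
  let F0 : ∀ n : SimplexCategoryᵒᵖ, (Nv.obj (Ch.obj P)).obj n → X.obj n := fun n c =>
    (val f (r n c)).app n (b0 n c)
  have hF0 : ∀ (n : SimplexCategoryᵒᵖ) {d : SimplexCategory} {q : Od.obj d ⟶ P} (_ : IsEmb q)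
      (b : (Nv.obj (Ch.obj (Od.obj d))).obj n),
      F0 n ((Nv.map (Ch.map q)).app n b) = (val f q).app n b := by
    intro n d q hq b
    exact val_wd f (hr n _) hq _ _ (hb0 n _)
  let F : Nv.obj (Ch.obj P) ⟶ X :=
    { app := fun n => ↾(F0 n)
      naturality := by
        intro n m θ
        ext c
        change F0 m ((Nv.obj (Ch.obj P)).map θ c) = X.map θ (F0 n c)
        obtain ⟨d, q, hq, b, rfl⟩ := exists_rep c
        have h1 : (Nv.obj (Ch.obj P)).map θ ((Nv.map (Ch.map q)).app n b) =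
            (Nv.map (Ch.map q)).app m ((Nv.obj (Ch.obj (Od.obj d))).map θ b) := rfl
        rw [h1, hF0 m hq, hF0 n hq]
        exact NatTrans.naturality_apply (val f q) θ b }
  refine ⟨F, ?_⟩
  ext n p
  change ULift.up (Nv.map (Ch.map (simplexHom P p)) ≫ F) =
    (f.app n p : ULift (SimplexCategory.sd.{0}.obj n.unop ⟶ X))
  refine ULift.ext _ _ ?_
  change Nv.map (Ch.map (simplexHom P p)) ≫ F = val f (simplexHom P p)
  ext m b
  change F0 m ((Nv.map (Ch.map (simplexHom P p))).app m b) = (val f (simplexHom P p)).app m b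
  -- factor through the image
  classical
  let A : NonemptyFiniteChains P :=
    { finset := Finset.univ.image (fun i : Fin (n.unop.len + 1) => (simplexHom P p).hom (ULift.up i))
      nonempty := Finset.univ_nonempty.image _
      comparable := by
        rintro ⟨x, hx⟩ ⟨y, hy⟩
        obtain ⟨i, -, rfl⟩ := Finset.mem_image.1 hx
        obtain ⟨j, -, rfl⟩ := Finset.mem_image.1 hy
        rcases le_total i j with hij | hij
        · exact Or.inl ((simplexHom P p).hom.monotone hij)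
        · exact Or.inr ((simplexHom P p).hom.monotone hij) }
  obtain ⟨d, q, hq, hrange⟩ := exists_emb P A
  obtain ⟨s, hs⟩ := exists_factor hq (simplexHom P p) (fun i => by
    refine (hrange _).1 ?_
    exact Finset.mem_image.2 ⟨i.down, Finset.mem_univ _, rfl⟩)
  rw [← hs, val_precomp, Functor.map_comp, Functor.map_comp]
  exact hF0 m hq ((Nv.map (Ch.map (Od.map s))).app m b)

/-- Morphisms from the nerve of a poset to `Ex X`. -/
noncomputable def exEquiv (P : PartOrd.{0}) (X : SSet.{0}) :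
    (Nv.obj (Ch.obj P) ⟶ X) ≃ (Nv.obj P ⟶ SSet.ex.obj X) :=
  Equiv.ofBijective toEx ⟨toEx_injective, toEx_surjective⟩

lemma exEquiv_nat {P Q : PartOrd.{0}} (g : P ⟶ Q) (F : Nv.obj (Ch.obj Q) ⟶ X) :
    exEquiv P X (Nv.map (Ch.map g) ≫ F) = Nv.map g ≫ exEquiv Q X F := toEx_nat g F

lemma exEquiv_symm_nat {P Q : PartOrd.{0}} (g : P ⟶ Q) (f : Nv.obj Q ⟶ SSet.ex.obj X) :
    (exEquiv P X).symm (Nv.map g ≫ f) = Nv.map (Ch.map g) ≫ (exEquiv Q X).symm f := by
  rw [Equiv.symm_apply_eq, exEquiv_nat, Equiv.apply_symm_apply]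

end Pool.Agent.H351R3
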