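import Mathlib

/-!
# Fences and extension of monotone maps defined on chains of a lower set
-/

namespace Pool.Agent.H351R3

open PartialOrder

/-- The fence with `2 r + 1` elements `0, 1, ..., 2 r`: every odd element lies below its two
neighbours, and there are no other relations. -/
@[ext] structure Fence (r : ℕ) where
  /-- the underlying integer -/
  val : ℤ
  nonneg : 0 ≤ val
  le_two_mul : val ≤ 2 * r

namespace Fence

variable {r : ℕ}

instance : PartialOrder (Fence r) where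
  le a b := a.val = b.val ∨ (a.val % 2 = 1 ∧ (b.val = a.val + 1 ∨ b.val = a.val - 1))
  le_refl a := Or.inl rfl
  le_trans a b c h1 h2 := by omega
  le_antisymm a b h1 h2 := by ext; omega

lemma le_iff (a b : Fence r) :
    a ≤ b ↔ a.val = b.val ∨ (a.val % 2 = 1 ∧ (b.val = a.val + 1 ∨ b.val = a.val - 1)) := Iff.rfl

/-- smallest odd number at least `a` -/
def up (a : Fence r) : ℤ := a.val + 1 - a.val % 2

/-- largest odd number at most `a` -/
def dn (a : Fence r) : ℤ := a.val - 1 + a.val % 2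

/-- having a common upper bound -/
def Compat (a b : Fence r) : Prop := ∃ B : Fence r, a ≤ B ∧ b ≤ B

lemma Compat.up_le {a b : Fence r} (h : Compat a b) : a.up ≤ b.dn + 2 := by
  obtain ⟨B, h1, h2⟩ := h
  rw [le_iff] at h1 h2
  unfold up dn
  omega

lemma dn_le_up (a : Fence r) : a.dn ≤ a.up := by
  unfold up dn
  omega

lemma dn_ge (a : Fence r) : -1 ≤ a.dn := by
  have := a.nonneg
  unfold dn
  omega

lemma up_le (a : Fence r) : a.up ≤ 2 * r + 1 := by
  have := a.le_two_mul
  unfold up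
  omega

lemma dn_odd (a : Fence r) : a.dn % 2 = 1 := by
  unfold dn
  omega

lemma compat_of_odd {a f : Fence r} (hf : f.val % 2 = 1) (h1 : a.up - 2 ≤ f.val)
    (h2 : f.val ≤ a.dn + 2) : Compat a f := by
  have ha0 := a.nonneg
  have ha1 := a.le_two_mul
  have hf0 := f.nonneg
  have hf1 := f.le_two_mul
  unfold up at h1
  unfold dn at h2
  by_cases hpar : a.val % 2 = 0
  · exact ⟨a, le_refl _, by rw [le_iff]; omega⟩
  · rcases lt_trichotomy f.val a.val with h | h | h
    · exact ⟨⟨a.val - 1, by omega, by omega⟩, by rw [le_iff]; dsimp; omega,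
        by rw [le_iff]; dsimp; omega⟩
    · exact ⟨a, le_refl _, by rw [le_iff]; omega⟩
    · exact ⟨⟨a.val + 1, by omega, by omega⟩, by rw [le_iff]; dsimp; omega,
        by rw [le_iff]; dsimp; omega⟩

lemma exists_isLUB (V : Set (Fence r)) (hne : V.Nonempty)
    (hV : ∀ a ∈ V, ∀ b ∈ V, Compat a b) : ∃ z, IsLUB V z := by
  by_cases hs : V.Subsingleton
  · obtain ⟨a, ha⟩ := hne
    refine ⟨a, ?_, ?_⟩
    · intro b hb
      rw [hs hb ha]
    · intro b hb
      exact hb ha
  · rw [Set.not_subsingleton_iff] at hs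
    obtain ⟨a, ha, b, hb, hab⟩ := hs
    obtain ⟨B, h1, h2⟩ := hV a ha b hb
    have hab' : a.val ≠ b.val := fun h => hab (Fence.ext h)
    refine ⟨B, ?_, ?_⟩
    · intro c hc
      obtain ⟨B1, h3, h4⟩ := hV a ha c hc
      obtain ⟨B2, h5, h6⟩ := hV b hb c hc
      rw [le_iff] at *
      omega
    · intro z hz
      have h3 := hz ha
      have h4 := hz hb
      rw [le_iff] at *
      omega

end Fence

variable {Q : Type*} [PartialOrder Q]

/-- `w` is comparable with all elements of the chain `τ`. -/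
def Adj (τ : NonemptyFiniteChains Q) (w : Q) : Prop := ∀ x ∈ τ.finset, x ≤ w ∨ w ≤ x

/-- the chains contained in `A` -/
def chainsIn (A : Set Q) : Set (NonemptyFiniteChains Q) := {τ | ∀ x ∈ τ.finset, x ∈ A}

lemma mem_chainsIn {A : Set Q} {τ : NonemptyFiniteChains Q} :
    τ ∈ chainsIn A ↔ ∀ x ∈ τ.finset, x ∈ A := Iff.rfl

lemma chainsIn_lower (A : Set Q) {τ τ' : NonemptyFiniteChains Q} (h : τ ≤ τ')
    (h' : τ' ∈ chainsIn A) : τ ∈ chainsIn A := fun x hx => h' x (h hx)

/-- There is a path of length `q` in `B`, from a neighbour of `τ` to `w`. -/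
inductive Reach (B : Set Q) (τ : NonemptyFiniteChains Q) : ℕ → Q → Prop
  | one {w : Q} (hw : w ∈ B) (h : Adj τ w) : Reach B τ 1 w
  | succ {q : ℕ} {w w' : Q} (h : Reach B τ q w) (hw' : w' ∈ B) (hc : w ≤ w' ∨ w' ≤ w) :
      Reach B τ (q + 1) w'

lemma Reach.mem {B : Set Q} {τ : NonemptyFiniteChains Q} {q : ℕ} {w : Q}
    (h : Reach B τ q w) : w ∈ B := by
  cases h with
  | one hw h => exact hw
  | succ h hw' hc => exact hw'

lemma Reach.pos {B : Set Q} {τ : NonemptyFiniteChains Q} {q : ℕ} {w : Q}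
    (h : Reach B τ q w) : 1 ≤ q := by
  cases h with
  | one hw h => exact le_refl _
  | succ h hw' hc => exact Nat.le_add_left _ _

/-- `τ` and `τ'` are linked by a path with `q` vertices in `B`. -/
def Link (B : Set Q) (q : ℕ) (τ τ' : NonemptyFiniteChains Q) : Prop :=
  (q = 0 ∧ ∀ x ∈ τ.finset, ∀ y ∈ τ'.finset, x ≤ y ∨ y ≤ x) ∨ ∃ w, Reach B τ q w ∧ Adj τ' w

/-- Short paths outside `A` between chains of `A` can be replaced by paths inside `A` which are
not longer. -/
def Sep (A : Set Q) (c : ℕ) : Prop :=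
  ∀ τ ∈ chainsIn A, ∀ τ' ∈ chainsIn A, ∀ q < c, Link Aᶜ q τ τ' → ∃ p ≤ q, Link A p τ τ'

open Classical in
/-- adding an element to a chain -/
noncomputable def addElt (τ : NonemptyFiniteChains Q) (w : Q) (h : Adj τ w) :
    NonemptyFiniteChains Q where
  finset := insert w τ.finset
  nonempty := Finset.insert_nonempty _ _
  comparable := by
    rintro ⟨a, ha⟩ ⟨b, hb⟩
    rw [Finset.mem_insert] at ha hb
    change a ≤ b ∨ b ≤ a
    rcases ha with ha | ha
    · rcases hb with hb | hb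
      · exact Or.inl (ha.trans hb.symm).le
      · rw [ha]
        exact (h b hb).symm
    · rcases hb with hb | hb
      · rw [hb]
        exact h a ha
      · exact τ.comparable ⟨a, ha⟩ ⟨b, hb⟩

lemma mem_addElt {τ : NonemptyFiniteChains Q} {w : Q} {h : Adj τ w} {x : Q} :
    x ∈ (addElt τ w h).finset ↔ x = w ∨ x ∈ τ.finset := by
  simp [addElt]

/-- one-element chain -/
def single (w : Q) : NonemptyFiniteChains Q where
  finset := {w}
  nonempty := Finset.singleton_nonempty _
  comparable := by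
    rintro ⟨a, ha⟩ ⟨b, hb⟩
    rw [Finset.mem_singleton] at ha hb
    subst ha
    subst hb
    exact Or.inl le_rfl

@[simp] lemma mem_single {w x : Q} : x ∈ (single w).finset ↔ x = w := by
  simp [single]

open Classical in
/-- union of two chains -/
noncomputable def unionChain (τ τ' : NonemptyFiniteChains Q)
    (h : ∀ x ∈ τ.finset, ∀ y ∈ τ'.finset, x ≤ y ∨ y ≤ x) : NonemptyFiniteChains Q where
  finset := τ.finset ∪ τ'.finset
  nonempty := τ.nonempty.mono Finset.subset_union_left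
  comparable := by
    rintro ⟨a, ha⟩ ⟨b, hb⟩
    rw [Finset.mem_union] at ha hb
    change a ≤ b ∨ b ≤ a
    rcases ha with ha | ha
    · rcases hb with hb | hb
      · exact τ.comparable ⟨a, ha⟩ ⟨b, hb⟩
      · exact h a ha b hb
    · rcases hb with hb | hb
      · exact (h b hb a ha).symm
      · exact τ'.comparable ⟨a, ha⟩ ⟨b, hb⟩

lemma mem_unionChain {τ τ' : NonemptyFiniteChains Q}
    {h : ∀ x ∈ τ.finset, ∀ y ∈ τ'.finset, x ≤ y ∨ y ≤ x} {x : Q} :
    x ∈ (unionChain τ τ' h).finset ↔ x ∈ τ.finset ∨ x ∈ τ'.finset := by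
  simp [unionChain]

/-- A chain has a greatest element. -/
lemma exists_max (τ : NonemptyFiniteChains Q) : ∃ y ∈ τ.finset, ∀ x ∈ τ.finset, x ≤ y := by
  obtain ⟨y, hy⟩ := τ.finset.exists_maximal τ.nonempty
  refine ⟨y, hy.prop, fun x hx => ?_⟩
  rcases τ.comparable ⟨x, hx⟩ ⟨y, hy.prop⟩ with h | h
  · exact h
  · exact hy.le_of_ge hx h

lemma single_mem {A : Set Q} {w : Q} (hw : w ∈ A) : single w ∈ chainsIn A := by
  intro x hx
  rw [mem_single] at hx
  rwa [hx]

section Lip

variable {r : ℕ} {A : Set Q} {D : NonemptyFiniteChains Q → Fence r}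
  (hD : ∀ τ ∈ chainsIn A, ∀ τ' ∈ chainsIn A, τ ≤ τ' → D τ ≤ D τ')

include hD

lemma compat_of_comparable {τ τ' : NonemptyFiniteChains Q} (hτ : τ ∈ chainsIn A)
    (hτ' : τ' ∈ chainsIn A) (h : ∀ x ∈ τ.finset, ∀ y ∈ τ'.finset, x ≤ y ∨ y ≤ x) :
    Fence.Compat (D τ) (D τ') := by
  have hU : unionChain τ τ' h ∈ chainsIn A := by
    intro x hx
    rw [mem_unionChain] at hx
    rcases hx with hx | hx
    · exact hτ x hx
    · exact hτ' x hx
  refine ⟨D (unionChain τ τ' h), hD _ hτ _ hU ?_, hD _ hτ' _ hU ?_⟩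
  · intro x hx
    rw [mem_unionChain]
    exact Or.inl hx
  · intro x hx
    rw [mem_unionChain]
    exact Or.inr hx

lemma reach_le {τ : NonemptyFiniteChains Q} (hτ : τ ∈ chainsIn A) {q : ℕ} {w : Q}
    (h : Reach A τ q w) : (D (single w)).up ≤ (D τ).dn + 2 * q := by
  induction h with
  | @one w hw h =>
    have hc : Fence.Compat (D (single w)) (D τ) := by
      refine compat_of_comparable hD (fun x hx => by rw [mem_single] at hx; rwa [hx]) hτ ?_
      intro x hx y hy
      rw [mem_single] at hx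
      rw [hx]
      exact (h y hy).symm
    have := hc.up_le
    push_cast
    omega
  | @succ q w w' h hw' hc ih =>
    have hw : w ∈ A := h.mem
    have hc' : Fence.Compat (D (single w')) (D (single w)) := by
      refine compat_of_comparable hD (fun x hx => by rw [mem_single] at hx; rwa [hx])
        (fun x hx => by rw [mem_single] at hx; rwa [hx]) ?_
      intro x hx y hy
      rw [mem_single] at hx hy
      rw [hx, hy]
      exact hc.symm
    have h1 := hc'.up_le
    have h2 := (D (single w)).dn_le_up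
    push_cast
    omega

lemma link_le {τ τ' : NonemptyFiniteChains Q} (hτ : τ ∈ chainsIn A) (hτ' : τ' ∈ chainsIn A)
    {p : ℕ} (h : Link A p τ τ') : (D τ').up ≤ (D τ).dn + 2 * (p + 1) := by
  rcases h with ⟨rfl, h⟩ | ⟨w, h, hw⟩
  · have := (compat_of_comparable hD hτ' hτ (fun x hx y hy => (h y hy x hx).symm)).up_le
    push_cast
    omega
  · have h1 := reach_le hD hτ h
    have hwA : w ∈ A := h.mem
    have hc : Fence.Compat (D τ') (D (single w)) := by
      refine compat_of_comparable hD hτ' (fun x hx => by rw [mem_single] at hx; rwa [hx]) ?_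
      intro x hx y hy
      rw [mem_single] at hy
      rw [hy]
      exact hw x hx
    have h2 := hc.up_le
    have h3 := (D (single w)).dn_le_up
    omega

end Lip

open Classical in
/-- the part of a chain which lies in `A` -/
noncomputable def part (A : Set Q) (τ : NonemptyFiniteChains Q)
    (h : ∃ x ∈ τ.finset, x ∈ A) : NonemptyFiniteChains Q where
  finset := τ.finset.filter (· ∈ A)
  nonempty := by
    obtain ⟨x, hx, hxA⟩ := h
    exact ⟨x, Finset.mem_filter.2 ⟨hx, hxA⟩⟩
  comparable := by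
    rintro ⟨a, ha⟩ ⟨b, hb⟩
    exact τ.comparable ⟨a, (Finset.mem_filter.1 ha).1⟩ ⟨b, (Finset.mem_filter.1 hb).1⟩

lemma mem_part {A : Set Q} {τ : NonemptyFiniteChains Q} {h : ∃ x ∈ τ.finset, x ∈ A} {x : Q} :
    x ∈ (part A τ h).finset ↔ x ∈ τ.finset ∧ x ∈ A := by
  simp [part]

lemma part_mem {A : Set Q} {τ : NonemptyFiniteChains Q} {h : ∃ x ∈ τ.finset, x ∈ A} :
    part A τ h ∈ chainsIn A := fun _ hx => (mem_part.1 hx).2

/-- **Extension theorem.** Monotone maps from the chains of `A` to a fence which is not too long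
extend to all chains. -/
theorem extend {A : Set Q} {r c : ℕ} (hr : 1 ≤ r) (hrc : r ≤ c) (H : Sep A c)
    (D : NonemptyFiniteChains Q → Fence r)
    (hD : ∀ τ ∈ chainsIn A, ∀ τ' ∈ chainsIn A, τ ≤ τ' → D τ ≤ D τ') :
    ∃ D' : NonemptyFiniteChains Q →o Fence r, ∀ τ ∈ chainsIn A, D' τ = D τ := by
  classical
  -- the values of the possible bounds
  let S : Q → Set ℤ := fun w =>
    {v | ∃ τ ∈ chainsIn A, ∃ q : ℕ, Reach Aᶜ τ q w ∧ v = (D τ).dn + 2 * q} ∪ {2 * (r : ℤ) - 1}
  have hSne : ∀ w, (S w).Nonempty := fun w => ⟨2 * (r : ℤ) - 1, Or.inr rfl⟩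
  have hSge : ∀ w, ∀ v ∈ S w, 1 ≤ v := by
    rintro w v (⟨τ, hτ, q, hq, rfl⟩ | hv)
    · have h1 := (D τ).dn_ge
      have h2 := hq.pos
      omega
    · rw [Set.mem_singleton_iff] at hv
      omega
  have hSbdd : ∀ w, BddBelow (S w) := fun w => ⟨1, fun v hv => hSge w v hv⟩
  have hSodd : ∀ w, ∀ v ∈ S w, v % 2 = 1 := by
    rintro w v (⟨τ, hτ, q, hq, rfl⟩ | hv)
    · have h1 := (D τ).dn_odd
      omega
    · rw [Set.mem_singleton_iff] at hv
      omega
  let g : Q → ℤ := fun w => sInf (S w)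
  have hgmem : ∀ w, g w ∈ S w := fun w => Int.csInf_mem (hSne w) (hSbdd w)
  have hgle : ∀ w, ∀ v ∈ S w, g w ≤ v := fun w v hv => csInf_le (hSbdd w) hv
  have hg1 : ∀ w, 1 ≤ g w := fun w => hSge w _ (hgmem w)
  have hg2 : ∀ w, g w ≤ 2 * (r : ℤ) - 1 := fun w => hgle w _ (Or.inr rfl)
  have hgodd : ∀ w, g w % 2 = 1 := fun w => hSodd w _ (hgmem w)
  let f : Q → Fence r := fun w => ⟨g w, by have := hg1 w; omega, by have := hg2 w; omega⟩
  -- neighbours outside `A`
  have hstep : ∀ w ∈ Aᶜ, ∀ w' ∈ Aᶜ, (w ≤ w' ∨ w' ≤ w) → g w' ≤ g w + 2 := by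
    intro w hw w' hw' hc
    rcases hgmem w with ⟨τ, hτ, q, hq, he⟩ | he
    · have h1 : (D τ).dn + 2 * ((q + 1 : ℕ) : ℤ) ∈ S w' :=
        Or.inl ⟨τ, hτ, q + 1, Reach.succ hq hw' hc, rfl⟩
      have h2 := hgle w' _ h1
      push_cast at h2
      omega
    · rw [Set.mem_singleton_iff] at he
      have := hg2 w'
      omega
  have hcomp1 : ∀ w ∈ Aᶜ, ∀ w' ∈ Aᶜ, (w ≤ w' ∨ w' ≤ w) → Fence.Compat (f w) (f w') := by
    intro w hw w' hw' hc
    have h1 := hstep w hw w' hw' hc
    have h2 := hstep w' hw' w hw hc.symm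
    have h3 := hgodd w
    have h4 := hgodd w'
    refine Fence.compat_of_odd (hgodd w') ?_ ?_
    · change (g w + 1 - g w % 2) - 2 ≤ g w'
      omega
    · change g w' ≤ (g w - 1 + g w % 2) + 2
      omega
  -- neighbours in `A`
  have hcomp2 : ∀ τ ∈ chainsIn A, ∀ w ∈ Aᶜ, Adj τ w → Fence.Compat (D τ) (f w) := by
    intro τ hτ w hw hadj
    refine Fence.compat_of_odd (hgodd w) ?_ ?_
    · change (D τ).up - 2 ≤ g w
      rcases hgmem w with ⟨τ', hτ', q, hq, he⟩ | he
      · rw [he]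
        by_cases hqr : r ≤ q
        · have h1 := (D τ').dn_ge
          have h2 := (D τ).up_le
          omega
        · obtain ⟨p, hp, hlink⟩ := H τ' hτ' τ hτ q (by omega) (Or.inr ⟨w, hq, hadj⟩)
          have h1 := link_le hD hτ' hτ hlink
          omega
      · rw [Set.mem_singleton_iff] at he
        have := (D τ).up_le
        omega
    · change g w ≤ (D τ).dn + 2
      have h1 : (D τ).dn + 2 * ((1 : ℕ) : ℤ) ∈ S w := Or.inl ⟨τ, hτ, 1, Reach.one hw hadj, rfl⟩
      have h2 := hgle w _ h1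
      push_cast at h2
      omega
  -- the set of values below the image of a chain
  let V : NonemptyFiniteChains Q → Set (Fence r) := fun τ =>
    {v | ∃ h : ∃ x ∈ τ.finset, x ∈ A, v = D (part A τ h)} ∪ {v | ∃ w ∈ τ.finset, w ∉ A ∧ v = f w}
  have hVne : ∀ τ, (V τ).Nonempty := by
    intro τ
    obtain ⟨x, hx⟩ := τ.nonempty
    by_cases hxA : x ∈ A
    · exact ⟨_, Or.inl ⟨⟨x, hx, hxA⟩, rfl⟩⟩
    · exact ⟨_, Or.inr ⟨x, hx, hxA, rfl⟩⟩
  have hVcompat : ∀ τ, ∀ a ∈ V τ, ∀ b ∈ V τ, Fence.Compat a b := by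
    intro τ a ha b hb
    have key : ∀ (h : ∃ x ∈ τ.finset, x ∈ A) (w : Q), w ∈ τ.finset → w ∉ A →
        Fence.Compat (D (part A τ h)) (f w) := by
      intro h w hw hwA
      refine hcomp2 _ part_mem w hwA ?_
      intro x hx
      exact τ.comparable ⟨x, (mem_part.1 hx).1⟩ ⟨w, hw⟩
    rcases ha with ⟨h, rfl⟩ | ⟨w, hw, hwA, rfl⟩
    · rcases hb with ⟨h', rfl⟩ | ⟨w', hw', hwA', rfl⟩
      · exact ⟨_, le_rfl, le_rfl⟩
      · exact key h w' hw' hwA'
    · rcases hb with ⟨h', rfl⟩ | ⟨w', hw', hwA', rfl⟩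
      · obtain ⟨B, h1, h2⟩ := key h' w hw hwA
        exact ⟨B, h2, h1⟩
      · exact hcomp1 w hwA w' hwA' (τ.comparable ⟨w, hw⟩ ⟨w', hw'⟩)
  choose F hF using fun τ => Fence.exists_isLUB (V τ) (hVne τ) (hVcompat τ)
  refine ⟨⟨F, ?_⟩, ?_⟩
  · intro τ τ' hle
    refine (hF τ).2 ?_
    rintro a (⟨h, rfl⟩ | ⟨w, hw, hwA, rfl⟩)
    · have h' : ∃ x ∈ τ'.finset, x ∈ A := by
        obtain ⟨x, hx, hxA⟩ := h
        exact ⟨x, hle hx, hxA⟩
      have h1 : D (part A τ h) ≤ D (part A τ' h') := by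
        refine hD _ part_mem _ part_mem ?_
        intro x hx
        rw [mem_part] at hx ⊢
        exact ⟨hle hx.1, hx.2⟩
      exact h1.trans ((hF τ').1 (Or.inl ⟨h', rfl⟩))
    · exact (hF τ').1 (Or.inr ⟨w, hle hw, hwA, rfl⟩)
  · intro τ hτ
    have hex : ∃ x ∈ τ.finset, x ∈ A := by
      obtain ⟨x, hx⟩ := τ.nonempty
      exact ⟨x, hx, hτ x hx⟩
    have hpart : part A τ hex = τ := by
      ext x
      rw [mem_part]
      exact ⟨fun h => h.1, fun h => ⟨h, hτ x h⟩⟩
    apply le_antisymm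
    · refine (hF τ).2 ?_
      rintro a (⟨h, rfl⟩ | ⟨w, hw, hwA, rfl⟩)
      · have : part A τ h = τ := hpart
        rw [this]
      · exact absurd (hτ w hw) hwA
    · have h1 := (hF τ).1 (Or.inl ⟨hex, rfl⟩)
      rwa [hpart] at h1

/-! ### The separation property of iterated subdivisions -/

lemma sep_one (A : Set Q) : Sep A 1 := by
  intro τ hτ τ' hτ' q hq h
  rcases h with ⟨h0, h⟩ | ⟨w, h, hw⟩
  · exact ⟨0, by omega, Or.inl ⟨rfl, h⟩⟩
  · have := h.pos
    omega

/-- Auxiliary: the projected path has arrived at the simplex `w`. -/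
def Arrive (A : Set Q) (y : NonemptyFiniteChains Q) (l : ℕ) (w : NonemptyFiniteChains Q) : Prop :=
  (l = 0 ∧ y ≤ w) ∨ ∃ x, Reach Aᶜ y l x ∧ x ∈ w.finset

lemma Arrive.mono {A : Set Q} {y : NonemptyFiniteChains Q} {l : ℕ} {w w' : NonemptyFiniteChains Q}
    (h : Arrive A y l w) (hw : w ≤ w') : Arrive A y l w' := by
  rcases h with ⟨h0, h⟩ | ⟨x, h, hx⟩
  · exact Or.inl ⟨h0, h.trans hw⟩
  · exact Or.inr ⟨x, h, hw hx⟩

lemma Arrive.next {A : Set Q} {y : NonemptyFiniteChains Q} {l : ℕ} {w : NonemptyFiniteChains Q}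
    (h : Arrive A y l w) {x : Q} (hx : x ∈ w.finset) (hxA : x ∉ A) : Reach Aᶜ y (l + 1) x := by
  rcases h with ⟨h0, h⟩ | ⟨x', h, hx'⟩
  · subst h0
    exact Reach.one hxA (fun z hz => w.comparable ⟨z, h hz⟩ ⟨x, hx⟩)
  · exact Reach.succ h hxA (w.comparable ⟨x', hx'⟩ ⟨x, hx⟩)

lemma exists_not_mem_of_not_chainsIn {A : Set Q} {w : NonemptyFiniteChains Q}
    (hw : w ∉ chainsIn A) : ∃ x ∈ w.finset, x ∉ A := by
  by_contra hcon
  push Not at hcon
  exact hw hcon

lemma arrive_of_reach {A : Set Q} {τ : NonemptyFiniteChains (NonemptyFiniteChains Q)}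
    {y : NonemptyFiniteChains Q} (hy : y ∈ τ.finset) (hyA : y ∈ chainsIn A) {i : ℕ}
    {w : NonemptyFiniteChains Q} (h : Reach (chainsIn A)ᶜ τ i w) :
    ∃ (l : ℕ) (v : NonemptyFiniteChains Q), w ≤ v ∧ Arrive A y l v ∧
      ((v = w ∧ 2 * l + 1 ≤ i) ∨ 2 * l + 2 ≤ i) := by
  induction h with
  | @one w hw h =>
    refine ⟨0, w, le_rfl, Or.inl ⟨rfl, ?_⟩, Or.inl ⟨rfl, le_rfl⟩⟩
    rcases h y hy with h | h
    · exact h
    · exact absurd (chainsIn_lower A h hyA) hw
  | @succ q w w' h hw' hc ih =>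
    obtain ⟨l, v, hwv, harr, hcase⟩ := ih
    rcases hc with hc | hc
    · rcases hcase with ⟨rfl, hl⟩ | hl
      · exact ⟨l, w', le_rfl, harr.mono hc, Or.inl ⟨rfl, by omega⟩⟩
      · obtain ⟨x, hx, hxA⟩ := exists_not_mem_of_not_chainsIn h.mem
        exact ⟨l + 1, w', le_rfl, Or.inr ⟨x, harr.next (hwv hx) hxA, hc hx⟩,
          Or.inl ⟨rfl, by omega⟩⟩
    · rcases hcase with ⟨rfl, hl⟩ | hl
      · exact ⟨l, v, hc, harr, Or.inr (by omega)⟩
      · exact ⟨l, v, hc.trans hwv, harr, Or.inr (by omega)⟩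

lemma reach_single {A : Set Q} {τ : NonemptyFiniteChains (NonemptyFiniteChains Q)}
    {y : NonemptyFiniteChains Q} (hy : ∀ z ∈ τ.finset, z ≤ y) (hyA : y ∈ chainsIn A) {p : ℕ}
    {x : Q} (h : Reach A y p x) : Reach (chainsIn A) τ (2 * p) (single x) := by
  induction h with
  | @one x hx h =>
    have h1 : addElt y x h ∈ chainsIn A := by
      intro z hz
      rw [mem_addElt] at hz
      rcases hz with rfl | hz
      · exact hx
      · exact hyA z hz
    have h2 : Reach (chainsIn A) τ 1 (addElt y x h) := by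
      refine Reach.one h1 (fun z hz => Or.inl ?_)
      refine (hy z hz).trans ?_
      intro t ht
      rw [mem_addElt]
      exact Or.inr ht
    refine Reach.succ h2 (single_mem hx) (Or.inr ?_)
    intro t ht
    rw [mem_single] at ht
    rw [mem_addElt]
    exact Or.inl ht
  | @succ p x x' h hx' hc ih =>
    have hx : x ∈ A := h.mem
    have hadj : Adj (single x) x' := by
      intro t ht
      rw [mem_single] at ht
      rw [ht]
      exact hc
    have h1 : addElt (single x) x' hadj ∈ chainsIn A := by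
      intro z hz
      rw [mem_addElt, mem_single] at hz
      rcases hz with rfl | rfl
      · exact hx'
      · exact hx
    have h2 : Reach (chainsIn A) τ (2 * p + 1) (addElt (single x) x' hadj) := by
      refine Reach.succ ih h1 (Or.inl ?_)
      intro t ht
      rw [mem_addElt]
      exact Or.inr ht
    refine Reach.succ h2 (single_mem hx') (Or.inr ?_)
    intro t ht
    rw [mem_single] at ht
    rw [mem_addElt]
    exact Or.inl ht

/-- The separation property improves under subdivision. -/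
theorem sep_step {A : Set Q} {c : ℕ} (H : Sep A c) : Sep (chainsIn A) (2 * c + 1) := by
  intro τ hτ τ' hτ' q hq hlink
  rcases hlink with ⟨h0, h⟩ | ⟨w, h, hw⟩
  · exact ⟨0, by omega, Or.inl ⟨rfl, h⟩⟩
  · obtain ⟨y, hy, hymax⟩ := exists_max τ
    obtain ⟨y', hy', hymax'⟩ := exists_max τ'
    have hyA : y ∈ chainsIn A := hτ y hy
    have hyA' : y' ∈ chainsIn A := hτ' y' hy'
    obtain ⟨l, v, hwv, harr, hcase⟩ := arrive_of_reach hy hyA h
    have hy'w : y' ≤ w := by
      rcases hw y' hy' with h1 | h1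
      · exact h1
      · exact absurd (chainsIn_lower A h1 hyA') h.mem
    have hy'v : y' ≤ v := hy'w.trans hwv
    have hlink' : Link Aᶜ l y y' := by
      rcases harr with ⟨hl, h1⟩ | ⟨x, h1, hx⟩
      · exact Or.inl ⟨hl, fun a ha b hb => v.comparable ⟨a, h1 ha⟩ ⟨b, hy'v hb⟩⟩
      · exact Or.inr ⟨x, h1, fun a ha => v.comparable ⟨a, hy'v ha⟩ ⟨x, hx⟩⟩
    have hl : 2 * l + 1 ≤ q := by omega
    obtain ⟨p, hp, hp'⟩ := H y hyA y' hyA' l (by omega) hlink'
    refine ⟨2 * p + 1, by omega, Or.inr ?_⟩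
    rcases hp' with ⟨hp0, h1⟩ | ⟨x, h1, hx⟩
    · subst hp0
      have h2 : unionChain y y' h1 ∈ chainsIn A := by
        intro z hz
        rw [mem_unionChain] at hz
        rcases hz with hz | hz
        · exact hyA z hz
        · exact hyA' z hz
      refine ⟨unionChain y y' h1, Reach.one h2 ?_, ?_⟩
      · intro z hz
        refine Or.inl ((hymax z hz).trans ?_)
        intro t ht
        rw [mem_unionChain]
        exact Or.inl ht
      · intro z hz
        refine Or.inl ((hymax' z hz).trans ?_)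
        intro t ht
        rw [mem_unionChain]
        exact Or.inr ht
    · have hxA : x ∈ A := h1.mem
      have h2 : addElt y' x hx ∈ chainsIn A := by
        intro z hz
        rw [mem_addElt] at hz
        rcases hz with rfl | hz
        · exact hxA
        · exact hyA' z hz
      refine ⟨addElt y' x hx, Reach.succ (reach_single hymax hyA h1) h2 (Or.inl ?_), ?_⟩
      · intro t ht
        rw [mem_single] at ht
        rw [mem_addElt]
        exact Or.inl ht
      · intro z hz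
        refine Or.inl ((hymax' z hz).trans ?_)
        intro t ht
        rw [mem_addElt]
        exact Or.inr ht

end Pool.Agent.H351R3
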