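import Mathlib
import Pool.Agent.H351R3.ExNerve
import Pool.Agent.H351R3.Fence

/-!
# Morphisms from standard simplices to iterated `Ex` of the nerve of a poset
-/

namespace Pool.Agent.H351R3

open CategoryTheory Opposite PartialOrder

lemma nv_map_bijective (Q C : PartOrd.{0}) :
    Function.Bijective (fun g : Q ⟶ C => Nv.map g) := by
  constructor
  · intro g g' h
    refine PartOrd.ext (fun x => ?_)
    have h1 := congrArg (fun z : Nv.obj Q ⟶ Nv.obj C =>
      ((z.app (op (SimplexCategory.mk 0)) (ComposableArrows.mk₀ (C := Q) x)) :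
        ComposableArrows C 0).obj 0) h
    exact h1
  · intro f
    let g0 : Q → C := fun x =>
      ((f.app (op (SimplexCategory.mk 0)) (ComposableArrows.mk₀ (C := Q) x)) :
        ComposableArrows C 0).obj 0
    -- vertices of the image of a simplex
    have hv : ∀ (n : SimplexCategoryᵒᵖ) (p : (Nv.obj Q).obj n) (i : Fin (n.unop.len + 1)),
        (f.app n p : ComposableArrows C n.unop.len).obj i =
          g0 ((p : ComposableArrows Q n.unop.len).obj i) := by
      intro n p i
      have h1 := NatTrans.naturality_apply f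
        (SimplexCategory.const (SimplexCategory.mk 0) n.unop i).op p
      have h2 : (Nv.obj Q).map (SimplexCategory.const (SimplexCategory.mk 0) n.unop i).op p =
          ComposableArrows.mk₀ (C := Q) ((p : ComposableArrows Q n.unop.len).obj i) :=
        nerve_ext (fun j => rfl)
      rw [h2] at h1
      have h3 := congrArg (fun z : (Nv.obj C).obj (op (SimplexCategory.mk 0)) =>
        (z : ComposableArrows C 0).obj 0) h1
      exact h3.symm
    have hmono : Monotone g0 := by
      intro x y hxy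
      let e : (Nv.obj Q).obj (op (SimplexCategory.mk 1)) :=
        ComposableArrows.mk₁ (C := Q) (homOfLE hxy)
      have h0 := hv _ e 0
      have h1 := hv _ e 1
      have h2 : (f.app _ e : ComposableArrows C 1).obj 0 ≤ (f.app _ e : ComposableArrows C 1).obj 1 :=
        leOfHom ((f.app _ e : ComposableArrows C 1).map (homOfLE (Fin.zero_le _)))
      have h3 : (f.app _ e : ComposableArrows C 1).obj 0 = g0 x := h0
      have h4 : (f.app _ e : ComposableArrows C 1).obj 1 = g0 y := h1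
      rw [← h3, ← h4]
      exact h2
    refine ⟨PartOrd.ofHom ⟨g0, hmono⟩, ?_⟩
    ext n p
    refine nerve_ext (fun i => ?_)
    exact (hv n p i).symm

/-- Nerves of posets are fully faithful. -/
noncomputable def nvEquiv (Q C : PartOrd.{0}) : (Q ⟶ C) ≃ (Nv.obj Q ⟶ Nv.obj C) :=
  Equiv.ofBijective _ (nv_map_bijective Q C)

lemma nvEquiv_apply {Q C : PartOrd.{0}} (g : Q ⟶ C) : nvEquiv Q C g = Nv.map g := rfl

/-- iterated posets of chains -/
noncomputable def chN : ℕ → (PartOrd.{0} ⥤ PartOrd.{0})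
  | 0 => 𝟭 _
  | n + 1 => chN n ⋙ Ch

/-- Morphisms from the nerve of a poset to `Ex^n X`. -/
noncomputable def iterEquiv : ∀ (n : ℕ) (X : SSet.{0}) (P : PartOrd.{0}),
    (Nv.obj ((chN n).obj P) ⟶ X) ≃ (Nv.obj P ⟶ (SSet.ex.{0}.obj)^[n] X)
  | 0, _, _ => Equiv.refl _
  | n + 1, X, P => (exEquiv ((chN n).obj P) X).trans (iterEquiv n (SSet.ex.obj X) P)

lemma iterEquiv_nat : ∀ (n : ℕ) (X : SSet.{0}) {P Q : PartOrd.{0}} (g : P ⟶ Q)
    (F : Nv.obj ((chN n).obj Q) ⟶ X),
    iterEquiv n X P (Nv.map ((chN n).map g) ≫ F) = Nv.map g ≫ iterEquiv n X Q F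
  | 0, _, _, _, _, _ => rfl
  | n + 1, X, P, Q, g, F =>
    (congrArg (iterEquiv n (SSet.ex.obj X) P) (exEquiv_nat ((chN n).map g) F)).trans
      (iterEquiv_nat n (SSet.ex.obj X) g (exEquiv ((chN n).obj Q) X F))

/-- Monotone maps from the iterated poset of chains. -/
noncomputable def monoEquiv (n : ℕ) (C P : PartOrd.{0}) :
    ((chN n).obj P ⟶ C) ≃ (Nv.obj P ⟶ (SSet.ex.{0}.obj)^[n] (Nv.obj C)) :=
  (nvEquiv _ _).trans (iterEquiv n (Nv.obj C) P)

lemma monoEquiv_nat (n : ℕ) (C : PartOrd.{0}) {P Q : PartOrd.{0}} (g : P ⟶ Q)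
    (F : (chN n).obj Q ⟶ C) :
    monoEquiv n C P ((chN n).map g ≫ F) = Nv.map g ≫ monoEquiv n C Q F := by
  change iterEquiv n (Nv.obj C) P (Nv.map ((chN n).map g ≫ F)) =
    Nv.map g ≫ iterEquiv n (Nv.obj C) Q (Nv.map F)
  rw [Functor.map_comp, iterEquiv_nat]

/-- the standard simplex as a nerve -/
noncomputable def stdIso (m : ℕ) :
    (SSet.stdSimplex.{0}.obj (SimplexCategory.mk m)) ≅ Nv.obj (Od.obj (SimplexCategory.mk m)) :=
  SSet.stdSimplex.isoNerve m

lemma stdIso_nat {m k : ℕ} (θ : SimplexCategory.mk m ⟶ SimplexCategory.mk k) :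
    SSet.stdSimplex.{0}.map θ ≫ (stdIso k).hom = (stdIso m).hom ≫ Nv.map (Od.map θ) := by
  ext n p
  refine nerve_ext (fun i => ?_)
  rfl

/-- Morphisms from a standard simplex to `Ex^n` of the nerve of a poset. -/
noncomputable def stdEquiv (n : ℕ) (C : PartOrd.{0}) (m : ℕ) :
    ((chN n).obj (Od.obj (SimplexCategory.mk m)) ⟶ C) ≃
      (SSet.stdSimplex.{0}.obj (SimplexCategory.mk m) ⟶ (SSet.ex.{0}.obj)^[n] (Nv.obj C)) :=
  (monoEquiv n C _).trans (Iso.homCongr (stdIso m).symm (Iso.refl _))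

lemma stdEquiv_apply (n : ℕ) (C : PartOrd.{0}) (m : ℕ)
    (F : (chN n).obj (Od.obj (SimplexCategory.mk m)) ⟶ C) :
    stdEquiv n C m F = (stdIso m).hom ≫ monoEquiv n C _ F := by
  change (stdIso m).hom ≫ monoEquiv n C _ F ≫ 𝟙 _ = _
  rw [Category.comp_id]

lemma stdEquiv_nat (n : ℕ) (C : PartOrd.{0}) {m k : ℕ}
    (θ : SimplexCategory.mk m ⟶ SimplexCategory.mk k)
    (F : (chN n).obj (Od.obj (SimplexCategory.mk k)) ⟶ C) :
    stdEquiv n C m ((chN n).map (Od.map θ) ≫ F) = SSet.stdSimplex.{0}.map θ ≫ stdEquiv n C k F := by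
  rw [stdEquiv_apply, stdEquiv_apply, monoEquiv_nat, ← Category.assoc, ← stdIso_nat,
    Category.assoc]

end Pool.Agent.H351R3
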