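import Mathlib
import Pool.Agent.H351R3.Iter

/-!
# Horn filling in iterated `Ex` of the nerve of a poset, in combinatorial terms
-/

namespace Pool.Agent.H351R3

open CategoryTheory Opposite PartialOrder

/-- compatibility of a family of monotone maps on the faces of a horn -/
def CompatD (n : ℕ) (C : PartOrd.{0}) : ∀ {m : ℕ} {i : Fin (m + 2)}
    (_ : ∀ j : Fin (m + 2), j ≠ i → ((chN n).obj (Od.obj (SimplexCategory.mk m)) ⟶ C)), Prop
  | 0, _, _ => True
  | m + 1, i, D => ∀ (j k : Fin (m + 3)) (hj : j ≠ i) (hk : k ≠ i) (hjk : j < k),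
      (chN n).map (Od.map (SimplexCategory.δ (k.pred (Fin.ne_zero_of_lt hjk)))) ≫ D j hj =
      (chN n).map (Od.map (SimplexCategory.δ (j.castPred (Fin.ne_last_of_lt hjk)))) ≫ D k hk

/-- the combinatorial horn filling property -/
def HornExt (n : ℕ) (C : PartOrd.{0}) : Prop :=
  ∀ (m : ℕ) (i : Fin (m + 2))
    (D : ∀ j : Fin (m + 2), j ≠ i → ((chN n).obj (Od.obj (SimplexCategory.mk m)) ⟶ C)),
    CompatD n C D →
    ∃ D' : (chN n).obj (Od.obj (SimplexCategory.mk (m + 1))) ⟶ C,
      ∀ j (hj : j ≠ i), (chN n).map (Od.map (SimplexCategory.δ j)) ≫ D' = D j hj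

lemma std_delta (n : ℕ) (C : PartOrd.{0}) {m : ℕ} (j : Fin (m + 2))
    (F : (chN n).obj (Od.obj (SimplexCategory.mk (m + 1))) ⟶ C) :
    SSet.stdSimplex.{0}.δ j ≫ stdEquiv n C (m + 1) F =
      stdEquiv n C m ((chN n).map (Od.map (SimplexCategory.δ j)) ≫ F) :=
  (stdEquiv_nat n C (SimplexCategory.δ j) F).symm

lemma compatD_iff (n : ℕ) (C : PartOrd.{0}) {m : ℕ} {i : Fin (m + 2)}
    (D : ∀ j : Fin (m + 2), j ≠ i → ((chN n).obj (Od.obj (SimplexCategory.mk m)) ⟶ C)) :
    CompatD n C D ↔ SSet.horn.IsCompatible (fun j hj => stdEquiv n C m (D j hj)) := by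
  cases m with
  | zero => exact Iff.rfl
  | succ m =>
    rw [SSet.horn.isCompatible_iff]
    refine forall_congr' fun j => forall_congr' fun k => forall_congr' fun hj =>
      forall_congr' fun hk => forall_congr' fun hjk => ?_
    rw [std_delta, std_delta, (stdEquiv n C m).apply_eq_iff_eq]

theorem kan_iff (n : ℕ) (C : PartOrd.{0}) :
    SSet.KanComplex ((SSet.ex.{0}.obj)^[n] (Nv.obj C)) ↔ HornExt n C := by
  rw [SSet.KanComplex.iff]
  constructor
  · intro h m i D hD
    obtain ⟨φ, hφ⟩ := h (fun j hj => stdEquiv n C m (D j hj)) ((compatD_iff n C D).1 hD)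
    refine ⟨(stdEquiv n C (m + 1)).symm φ, fun j hj => ?_⟩
    apply (stdEquiv n C m).injective
    rw [← std_delta, Equiv.apply_symm_apply]
    exact hφ j hj
  · intro h m i f hf
    have hD : CompatD n C (fun j hj => (stdEquiv n C m).symm (f j hj)) := by
      rw [compatD_iff]
      have he : (fun j hj => stdEquiv n C m ((stdEquiv n C m).symm (f j hj))) = f := by
        funext j hj
        exact Equiv.apply_symm_apply _ _
      rw [he]
      exact hf
    obtain ⟨D', hD'⟩ := h m i _ hD
    refine ⟨stdEquiv n C (m + 1) D', fun j hj => ?_⟩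
    rw [std_delta, hD', Equiv.apply_symm_apply]

/-! ### Regions -/

/-- iterated chains of a subset -/
def reg : ∀ (n : ℕ) (P : PartOrd.{0}) (_ : Set P), Set ((chN n).obj P)
  | 0, _, S => S
  | n + 1, P, S => chainsIn (Q := (chN n).obj P) (reg n P S)

lemma emb_iter : ∀ (n : ℕ) {P Q : PartOrd.{0}} {g : P ⟶ Q}, IsEmb g → IsEmb ((chN n).map g)
  | 0, _, _, _, h => h
  | n + 1, _, _, _, h => (emb_iter n h).ch

lemma mem_reg_iff : ∀ (n : ℕ) {P Q : PartOrd.{0}} {g : P ⟶ Q} (_ : IsEmb g) (S : Set Q)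
    (_ : ∀ x, x ∈ S ↔ ∃ y, g.hom y = x) (x : (chN n).obj Q),
    x ∈ reg n Q S ↔ ∃ y, ((chN n).map g).hom y = x
  | 0, _, _, _, _, _, hS, x => hS x
  | n + 1, P, Q, g, hg, S, hS, x => by
    constructor
    · intro hx
      exact ch_range (emb_iter n hg) x (fun y hy => (mem_reg_iff n hg S hS y).1 (hx y hy))
    · rintro ⟨y, rfl⟩ z hz
      obtain ⟨w, hw, hwz⟩ :=
        (NonemptyFiniteChains.mem_map_iff (X := (chN n).obj P) y ((chN n).map g).hom z).1 hz
      exact (mem_reg_iff n hg S hS z).2 ⟨w, hwz⟩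

lemma reg_inter : ∀ (n : ℕ) (P : PartOrd.{0}) (S S' : Set P),
    reg n P (S ∩ S') = reg n P S ∩ reg n P S'
  | 0, _, _, _ => rfl
  | n + 1, P, S, S' => by
    ext c
    change (∀ x ∈ (c : NonemptyFiniteChains ((chN n).obj P)).finset, x ∈ reg n P (S ∩ S')) ↔
      (∀ x ∈ (c : NonemptyFiniteChains ((chN n).obj P)).finset, x ∈ reg n P S) ∧
      (∀ x ∈ (c : NonemptyFiniteChains ((chN n).obj P)).finset, x ∈ reg n P S')
    rw [reg_inter n P S S']
    exact ⟨fun h => ⟨fun x hx => (h x hx).1, fun x hx => (h x hx).2⟩,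
      fun h x hx => ⟨h.1 x hx, h.2 x hx⟩⟩

lemma reg_lower (n : ℕ) (P : PartOrd.{0}) (S : Set P) {x y : (chN (n + 1)).obj P} (h : x ≤ y)
    (hy : y ∈ reg (n + 1) P S) : x ∈ reg (n + 1) P S :=
  chainsIn_lower (Q := (chN n).obj P) (reg n P S) h hy

/-- the face opposite to a vertex -/
def facet (m : ℕ) (j : Fin (m + 2)) : Set (Od.obj (SimplexCategory.mk (m + 1))) :=
  {x | x.down ≠ j}

lemma delta_emb (m : ℕ) (j : Fin (m + 2)) :
    IsEmb (Od.map (SimplexCategory.δ j) : Od.obj (SimplexCategory.mk m) ⟶ _) := by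
  intro x y h
  have h1 : j.succAbove x.down ≤ j.succAbove y.down := h
  have h2 : x.down ≤ y.down := (Fin.strictMono_succAbove j).le_iff_le.1 h1
  exact h2

lemma delta_range (m : ℕ) (j : Fin (m + 2)) (x : Od.obj (SimplexCategory.mk (m + 1))) :
    x ∈ facet m j ↔
      ∃ y, (Od.map (SimplexCategory.δ j) : Od.obj (SimplexCategory.mk m) ⟶ _).hom y = x := by
  constructor
  · intro hx
    obtain ⟨y, hy⟩ := Fin.exists_succAbove_eq hx
    exact ⟨ULift.up y, ULift.ext _ _ hy⟩
  · rintro ⟨y, rfl⟩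
    exact Fin.succAbove_ne j y.down

/-- the horn, at level `n` -/
def hornReg (n m : ℕ) (i : Fin (m + 2)) : Set ((chN n).obj (Od.obj (SimplexCategory.mk (m + 1)))) :=
  {x | ∃ j, j ≠ i ∧ x ∈ reg n _ (facet m j)}

lemma mem_face_iff (n m : ℕ) (j : Fin (m + 2))
    (x : (chN n).obj (Od.obj (SimplexCategory.mk (m + 1)))) :
    x ∈ reg n _ (facet m j) ↔ ∃ y, ((chN n).map (Od.map (SimplexCategory.δ j))).hom y = x :=
  mem_reg_iff n (delta_emb m j) (facet m j) (delta_range m j) x

/-- The values of a compatible family on the intersection of two faces agree. -/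
lemma compat_agree (n : ℕ) (C : PartOrd.{0}) {m : ℕ} {i : Fin (m + 2)}
    {D : ∀ j : Fin (m + 2), j ≠ i → ((chN n).obj (Od.obj (SimplexCategory.mk m)) ⟶ C)}
    (hD : CompatD n C D) (j k : Fin (m + 2)) (hj : j ≠ i) (hk : k ≠ i) (hjk : j < k)
    (y y' : (chN n).obj (Od.obj (SimplexCategory.mk m)))
    (h : ((chN n).map (Od.map (SimplexCategory.δ j))).hom y =
      ((chN n).map (Od.map (SimplexCategory.δ k))).hom y') :
    (D j hj).hom y = (D k hk).hom y' := by
  cases m with
  | zero =>
    exfalso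
    omega
  | succ m =>
    have hD' := hD j k hj hk hjk
    set k0 : Fin (m + 2) := k.pred (Fin.ne_zero_of_lt hjk) with hk0
    set j0 : Fin (m + 2) := j.castPred (Fin.ne_last_of_lt hjk) with hj0
    have hjc : j0.castSucc = j := Fin.castSucc_castPred _ _
    have hkc : k0.succ = k := Fin.succ_pred _ _
    have hjk0 : j0 ≤ k0 := by
      rw [← hjc, ← hkc] at hjk
      rw [Fin.lt_def] at hjk
      rw [Fin.le_def]
      simp at hjk
      omega
    have hcomm : SimplexCategory.δ k0 ≫ SimplexCategory.δ j =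
        SimplexCategory.δ j0 ≫ SimplexCategory.δ k := by
      rw [← hjc, ← hkc]
      exact (SimplexCategory.δ_comp_δ hjk0).symm
    -- the common element lies in the intersection of the faces
    set x := ((chN n).map (Od.map (SimplexCategory.δ j))).hom y with hx
    have hx1 : x ∈ reg n _ (facet (m + 1) j) := (mem_face_iff n (m + 1) j x).2 ⟨y, rfl⟩
    have hx2 : x ∈ reg n _ (facet (m + 1) k) := (mem_face_iff n (m + 1) k x).2 ⟨y', h.symm⟩
    have hx3 : x ∈ reg n _ (facet (m + 1) j ∩ facet (m + 1) k) := by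
      rw [reg_inter]
      exact ⟨hx1, hx2⟩
    have hemb : IsEmb (Od.map (SimplexCategory.δ k0 ≫ SimplexCategory.δ j) :
        Od.obj (SimplexCategory.mk m) ⟶ _) := by
      rw [Functor.map_comp]
      exact fun a b hab => delta_emb m k0 _ _ (delta_emb (m + 1) j _ _ hab)
    obtain ⟨z, hz⟩ := (mem_reg_iff n hemb (facet (m + 1) j ∩ facet (m + 1) k) (by
      intro x
      constructor
      · rintro ⟨h1, h2⟩
        obtain ⟨a, ha⟩ := (delta_range (m + 1) j x).1 h1
        have ha' : j.succAbove a.down = x.down := congrArg ULift.down ha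
        have hne : a.down ≠ k0 := by
          intro hak
          rw [hak] at ha'
          apply h2
          rw [← ha', ← hjc, ← hkc]
          exact Fin.succAbove_of_le_castSucc _ _ (by
            rw [Fin.le_def] at hjk0 ⊢
            simpa using hjk0)
        obtain ⟨b, hb⟩ := Fin.exists_succAbove_eq hne
        refine ⟨ULift.up b, ?_⟩
        refine ULift.ext _ _ ?_
        change j.succAbove (k0.succAbove b) = x.down
        rw [hb, ha']
      · rintro ⟨b, rfl⟩
        constructor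
        · exact Fin.succAbove_ne j _
        · rw [hcomm]
          exact Fin.succAbove_ne k _) x).1 hx3
    have hy : y = ((chN n).map (Od.map (SimplexCategory.δ k0))).hom z := by
      apply (emb_iter n (delta_emb (m + 1) j)).inj
      rw [← hx, ← hz, Functor.map_comp, Functor.map_comp]
      rfl
    have hy' : y' = ((chN n).map (Od.map (SimplexCategory.δ j0))).hom z := by
      apply (emb_iter n (delta_emb (m + 1) k)).inj
      rw [← h, ← hz, hcomm, Functor.map_comp, Functor.map_comp]
      rfl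
    rw [hy, hy']
    exact congrArg (fun f : (chN n).obj (Od.obj (SimplexCategory.mk m)) ⟶ C => f.hom z) hD'

lemma compat_agree' (n : ℕ) (C : PartOrd.{0}) {m : ℕ} {i : Fin (m + 2)}
    {D : ∀ j : Fin (m + 2), j ≠ i → ((chN n).obj (Od.obj (SimplexCategory.mk m)) ⟶ C)}
    (hD : CompatD n C D) (j k : Fin (m + 2)) (hj : j ≠ i) (hk : k ≠ i)
    (y y' : (chN n).obj (Od.obj (SimplexCategory.mk m)))
    (h : ((chN n).map (Od.map (SimplexCategory.δ j))).hom y =
      ((chN n).map (Od.map (SimplexCategory.δ k))).hom y') :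
    (D j hj).hom y = (D k hk).hom y' := by
  rcases lt_trichotomy j k with hjk | hjk | hjk
  · exact compat_agree n C hD j k hj hk hjk y y' h
  · subst hjk
    rw [(emb_iter n (delta_emb m j)).inj h]
  · exact (compat_agree n C hD k j hk hj hjk y' y h.symm).symm

/-- Gluing a compatible family. -/
lemma exists_glue (n : ℕ) (C : PartOrd.{0}) (c0 : C) {m : ℕ} {i : Fin (m + 2)}
    {D : ∀ j : Fin (m + 2), j ≠ i → ((chN n).obj (Od.obj (SimplexCategory.mk m)) ⟶ C)}
    (hD : CompatD n C D) :
    ∃ E : (chN n).obj (Od.obj (SimplexCategory.mk (m + 1))) → C,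
      ∀ j (hj : j ≠ i) y, E (((chN n).map (Od.map (SimplexCategory.δ j))).hom y) =
        (D j hj).hom y := by
  classical
  refine ⟨fun x => if h : ∃ (j : Fin (m + 2)) (_ : j ≠ i)
    (y : (chN n).obj (Od.obj (SimplexCategory.mk m))),
      ((chN n).map (Od.map (SimplexCategory.δ j))).hom y = x then
        (D h.choose h.choose_spec.choose).hom h.choose_spec.choose_spec.choose else c0, ?_⟩
  intro j hj y
  have h : ∃ (j' : Fin (m + 2)) (_ : j' ≠ i)
    (y' : (chN n).obj (Od.obj (SimplexCategory.mk m))),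
      ((chN n).map (Od.map (SimplexCategory.δ j'))).hom y' =
        ((chN n).map (Od.map (SimplexCategory.δ j))).hom y := ⟨j, hj, y, rfl⟩
  change (if h : _ then _ else _) = _
  rw [dif_pos h]
  exact compat_agree' n C hD _ _ _ _ _ _ h.choose_spec.choose_spec.choose_spec

end Pool.Agent.H351R3
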