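import Mathlib
import Pool.Agent.H351R3.Glue

/-!
# Kan condition for iterated `Ex` of the nerve of a fence
-/

namespace Pool.Agent.H351R3

open CategoryTheory Opposite PartialOrder

/-- fences as objects of the category of posets -/
abbrev fenceP (r : ℕ) : PartOrd.{0} := PartOrd.of (Fence r)

lemma chainsIn_hornReg (k m : ℕ) (i : Fin (m + 2)) (hk : 1 ≤ k)
    (τ : NonemptyFiniteChains ((chN k).obj (Od.obj (SimplexCategory.mk (m + 1)))))
    (hτ : τ ∈ chainsIn (hornReg k m i)) :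
    ∃ j, j ≠ i ∧ (τ : (chN (k + 1)).obj (Od.obj (SimplexCategory.mk (m + 1)))) ∈
      reg (k + 1) _ (facet m j) := by
  obtain ⟨y, hy, hmax⟩ := exists_max τ
  obtain ⟨j, hj, hyj⟩ := hτ y hy
  refine ⟨j, hj, ?_⟩
  obtain ⟨k, rfl⟩ := Nat.exists_eq_add_of_le' hk
  intro x hx
  exact reg_lower k _ _ (hmax x hx) hyj

lemma hornReg_succ (k m : ℕ) (i : Fin (m + 2)) (hk : 1 ≤ k) :
    hornReg (k + 1) m i =
      chainsIn (Q := (chN k).obj (Od.obj (SimplexCategory.mk (m + 1)))) (hornReg k m i) := by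
  ext τ
  constructor
  · rintro ⟨j, hj, h⟩ x hx
    exact ⟨j, hj, h x hx⟩
  · intro h
    exact chainsIn_hornReg k m i hk τ h

lemma sep_horn (m : ℕ) (i : Fin (m + 2)) : ∀ k : ℕ,
    Sep (hornReg (k + 1) m i) (2 ^ (k + 1) - 1)
  | 0 => sep_one _
  | k + 1 => by
    have h := sep_step (sep_horn m i k)
    have h2 : 2 * (2 ^ (k + 1) - 1) + 1 = 2 ^ (k + 1 + 1) - 1 := by
      have : 1 ≤ 2 ^ (k + 1) := Nat.one_le_two_pow
      rw [pow_succ 2 (k + 1)]
      omega
    rw [h2] at h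
    rw [hornReg_succ (k + 1) m i (by omega)]
    exact h

theorem hornExt_fence (k r : ℕ) (hr : 1 ≤ r) (hrk : r ≤ 2 ^ (k + 1) - 1) :
    HornExt (k + 2) (fenceP r) := by
  intro m i D hD
  let Q : PartOrd.{0} := (chN (k + 1)).obj (Od.obj (SimplexCategory.mk (m + 1)))
  obtain ⟨E, hE⟩ := exists_glue (k + 2) (fenceP r) (⟨0, le_refl _, by positivity⟩ : Fence r) hD
  have hmono : ∀ τ ∈ chainsIn (Q := Q) (hornReg (k + 1) m i),
      ∀ τ' ∈ chainsIn (Q := Q) (hornReg (k + 1) m i), τ ≤ τ' →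
      (E τ : Fence r) ≤ (E τ' : Fence r) := by
    intro τ hτ τ' hτ' hle
    obtain ⟨j, hj, hreg'⟩ := chainsIn_hornReg (k + 1) m i (by omega) τ' hτ'
    have hreg := reg_lower (k + 1) _ (facet m j) (x := τ) (y := τ') hle hreg'
    obtain ⟨y, hy⟩ := (mem_face_iff (k + 2) m j _).1 hreg
    obtain ⟨y', hy'⟩ := (mem_face_iff (k + 2) m j _).1 hreg'
    have h1 : E τ = (D j hj).hom y := by rw [← hE j hj y, hy]
    have h2 : E τ' = (D j hj).hom y' := by rw [← hE j hj y', hy']
    have h3 : y ≤ y' := by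
      refine emb_iter (k + 2) (delta_emb m j) _ _ ?_
      rw [hy, hy']
      exact hle
    have h4 : (D j hj).hom y ≤ (D j hj).hom y' := (D j hj).hom.monotone h3
    exact (h1.trans_le h4).trans_eq h2.symm
  obtain ⟨D', hD'⟩ := extend (Q := Q) (A := hornReg (k + 1) m i) hr hrk (sep_horn m i k)
    (fun τ => E τ) hmono
  refine ⟨PartOrd.ofHom D', fun j hj => ?_⟩
  refine PartOrd.ext (fun y => ?_)
  have hmem : ((chN (k + 2)).map (Od.map (SimplexCategory.δ j))).hom y ∈
      reg (k + 2) _ (facet m j) := (mem_face_iff (k + 2) m j _).2 ⟨y, rfl⟩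
  have hmem' : (((chN (k + 2)).map (Od.map (SimplexCategory.δ j))).hom y :
      NonemptyFiniteChains Q) ∈ chainsIn (hornReg (k + 1) m i) :=
    fun x hx => ⟨j, hj, hmem x hx⟩
  have h5 := hD' _ hmem'
  rw [← hE j hj y]
  exact h5

theorem hornExt_one_of_top (C : PartOrd.{0}) (t : C) (ht : ∀ x : C, x ≤ t) : HornExt 1 C := by
  classical
  intro m i D hD
  obtain ⟨E, hE⟩ := exists_glue 1 C t hD
  let L : PartOrd.{0} := (chN 1).obj (Od.obj (SimplexCategory.mk (m + 1)))
  let F : L → C := fun x => if x ∈ hornReg 1 m i then E x else t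
  have hF : Monotone F := by
    intro x y hxy
    by_cases hy : y ∈ hornReg 1 m i
    · obtain ⟨j, hj, hyj⟩ := hy
      have hxj : x ∈ reg 1 _ (facet m j) := reg_lower 0 _ (facet m j) hxy hyj
      obtain ⟨a, ha⟩ := (mem_face_iff 1 m j _).1 hxj
      obtain ⟨b, hb⟩ := (mem_face_iff 1 m j _).1 hyj
      have h1 : F x = (D j hj).hom a := by
        have : F x = E x := if_pos ⟨j, hj, hxj⟩
        rw [this, ← hE j hj a, ha]
      have h2 : F y = (D j hj).hom b := by
        have : F y = E y := if_pos ⟨j, hj, hyj⟩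
        rw [this, ← hE j hj b, hb]
      have h3 : a ≤ b := by
        refine emb_iter 1 (delta_emb m j) _ _ ?_
        rw [ha, hb]
        exact hxy
      rw [h1, h2]
      exact (D j hj).hom.monotone h3
    · have : F y = t := if_neg hy
      rw [this]
      exact ht _
  refine ⟨PartOrd.ofHom ⟨F, hF⟩, fun j hj => ?_⟩
  refine PartOrd.ext (fun y => ?_)
  have hmem : ((chN 1).map (Od.map (SimplexCategory.δ j))).hom y ∈ reg 1 _ (facet m j) :=
    (mem_face_iff 1 m j _).2 ⟨y, rfl⟩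
  have h1 : F (((chN 1).map (Od.map (SimplexCategory.δ j))).hom y) =
      E (((chN 1).map (Od.map (SimplexCategory.δ j))).hom y) := if_pos ⟨j, hj, hmem⟩
  rw [← hE j hj y]
  exact h1

end Pool.Agent.H351R3
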