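import Mathlib
import Pool.Agent.H351R3.KanFence

/-!
# Failure of the Kan condition for iterated `Ex` of the nerve of a long fence
-/

namespace Pool.Agent.H351R3

open CategoryTheory Opposite PartialOrder

/-- a vertex of a standard simplex -/
def pt (m : ℕ) (a : Fin (m + 1)) : Od.obj (SimplexCategory.mk m) :=
  (show ULift.{0} (Fin (m + 1)) from ULift.up a)

/-- the index of a vertex of a standard simplex -/
def ptInv (m : ℕ) (x : Od.obj (SimplexCategory.mk m)) : Fin (m + 1) :=
  (show ULift.{0} (Fin (m + 1)) from x).down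

lemma delta_pt (m : ℕ) (j : Fin (m + 2)) (a : Fin (m + 1)) :
    (Od.map (SimplexCategory.δ j)).hom (pt m a) = pt (m + 1) (j.succAbove a) := rfl

/-- position on the subdivided interval -/
noncomputable def posN : ∀ n : ℕ, (chN n).obj (Od.obj (SimplexCategory.mk 1)) → ℤ
  | 0, x => ((ptInv 1 x : Fin 2) : ℕ)
  | n + 1, c => (c : NonemptyFiniteChains ((chN n).obj (Od.obj (SimplexCategory.mk 1)))).finset.inf'
        (c : NonemptyFiniteChains ((chN n).obj (Od.obj (SimplexCategory.mk 1)))).nonempty (posN n) +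
      (c : NonemptyFiniteChains ((chN n).obj (Od.obj (SimplexCategory.mk 1)))).finset.sup'
        (c : NonemptyFiniteChains ((chN n).obj (Od.obj (SimplexCategory.mk 1)))).nonempty (posN n)

lemma posN_succ (n : ℕ) (c : NonemptyFiniteChains ((chN n).obj (Od.obj (SimplexCategory.mk 1)))) :
    posN (n + 1) c = c.finset.inf' c.nonempty (posN n) + c.finset.sup' c.nonempty (posN n) := rfl

lemma posN_bounds : ∀ (n : ℕ) (x : (chN n).obj (Od.obj (SimplexCategory.mk 1))),
    0 ≤ posN n x ∧ posN n x ≤ 2 ^ n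
  | 0, x => by
    have h : ((ptInv 1 x : Fin 2) : ℕ) < 2 := (ptInv 1 x).2
    change 0 ≤ (((ptInv 1 x : Fin 2) : ℕ) : ℤ) ∧ (((ptInv 1 x : Fin 2) : ℕ) : ℤ) ≤ 2 ^ 0
    constructor
    · positivity
    · rw [pow_zero]
      omega
  | n + 1, c => by
    let c' : NonemptyFiniteChains ((chN n).obj (Od.obj (SimplexCategory.mk 1))) := c
    have h : posN (n + 1) c = c'.finset.inf' c'.nonempty (posN n) +
      c'.finset.sup' c'.nonempty (posN n) := rfl
    obtain ⟨a, ha, hae⟩ := c'.finset.exists_mem_eq_inf' c'.nonempty (posN n)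
    obtain ⟨b, hb, hbe⟩ := c'.finset.exists_mem_eq_sup' c'.nonempty (posN n)
    have h1 := posN_bounds n a
    have h2 := posN_bounds n b
    rw [h, hae, hbe, pow_succ]
    constructor
    · linarith
    · linarith

/-- comparable elements have positions which differ by at most one -/
lemma posN_step : ∀ (n : ℕ) (x y : (chN n).obj (Od.obj (SimplexCategory.mk 1))), x ≤ y →
    posN n x ≤ posN n y + 1 ∧ posN n y ≤ posN n x + 1
  | 0, x, y, _ => by
    have h1 := posN_bounds 0 x
    have h2 := posN_bounds 0 y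
    rw [pow_zero] at h1 h2
    omega
  | n + 1, c, d, h => by
    have ih := posN_step n
    have := posN_core n (fun x y hxy => ih x y hxy) c d h
    omega
where
  posN_core (n : ℕ) (ih : ∀ (x y : (chN n).obj (Od.obj (SimplexCategory.mk 1))), x ≤ y →
      posN n x ≤ posN n y + 1 ∧ posN n y ≤ posN n x + 1)
      (c d : NonemptyFiniteChains ((chN n).obj (Od.obj (SimplexCategory.mk 1)))) (h : c ≤ d) :
      posN (n + 1) c = posN (n + 1) d ∨ (posN (n + 1) c % 2 = 0 ∧
        (posN (n + 1) d = posN (n + 1) c + 1 ∨ posN (n + 1) d = posN (n + 1) c - 1)) := by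
    rw [posN_succ, posN_succ]
    obtain ⟨a, ha, hae⟩ := d.finset.exists_mem_eq_inf' d.nonempty (posN n)
    obtain ⟨b, hb, hbe⟩ := d.finset.exists_mem_eq_sup' d.nonempty (posN n)
    have h1 : d.finset.sup' d.nonempty (posN n) ≤ d.finset.inf' d.nonempty (posN n) + 1 := by
      rw [hae, hbe]
      rcases d.comparable ⟨a, ha⟩ ⟨b, hb⟩ with hab | hab
      · exact (ih a b hab).2
      · exact (ih b a hab).1
    have h2 : d.finset.inf' d.nonempty (posN n) ≤ c.finset.inf' c.nonempty (posN n) :=
      Finset.inf'_mono (posN n) h c.nonempty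
    have h3 : c.finset.sup' c.nonempty (posN n) ≤ d.finset.sup' d.nonempty (posN n) :=
      Finset.sup'_mono (posN n) h c.nonempty
    have h4 : c.finset.inf' c.nonempty (posN n) ≤ c.finset.sup' c.nonempty (posN n) := by
      obtain ⟨z, hz⟩ := c.nonempty
      exact (Finset.inf'_le (posN n) hz).trans (Finset.le_sup' (posN n) hz)
    omega

lemma posN_mono (n : ℕ) (c d : (chN (n + 1)).obj (Od.obj (SimplexCategory.mk 1))) (h : c ≤ d) :
      posN (n + 1) c = posN (n + 1) d ∨ (posN (n + 1) c % 2 = 0 ∧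
        (posN (n + 1) d = posN (n + 1) c + 1 ∨ posN (n + 1) d = posN (n + 1) c - 1)) :=
  posN_step.posN_core n (posN_step n) c d h

/-- iterated vertices -/
noncomputable def vtx : ∀ (n : ℕ) {P : PartOrd.{0}} (_ : P), (chN n).obj P
  | 0, _, a => a
  | n + 1, P, a => single (Q := (chN n).obj P) (vtx n a)

lemma vtx_map : ∀ (n : ℕ) {P P' : PartOrd.{0}} (g : P ⟶ P') (a : P),
    ((chN n).map g).hom (vtx n a) = vtx n (g.hom a)
  | 0, _, _, _, _ => rfl
  | n + 1, P, P', g, a => by
    have h1 : ∀ y, y ∈ (NonemptyFiniteChains.map (X := (chN n).obj P)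
        (single (Q := (chN n).obj P) (vtx n a)) ((chN n).map g).hom).finset ↔
        y ∈ (single (Q := (chN n).obj P') (vtx n (g.hom a))).finset := by
      intro y
      rw [NonemptyFiniteChains.mem_map_iff, mem_single]
      constructor
      · rintro ⟨x, hx, rfl⟩
        rw [mem_single] at hx
        rw [hx]
        exact vtx_map n g a
      · rintro rfl
        exact ⟨vtx n a, mem_single.2 rfl, vtx_map n g a⟩
    exact NonemptyFiniteChains.ext (Finset.ext h1)

lemma posN_vtx : ∀ (n : ℕ) (a : Fin 2),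
    posN n (vtx n (pt 1 a)) = 2 ^ n * (a : ℕ)
  | 0, a => by
    rw [pow_zero, one_mul]
    rfl
  | n + 1, a => by
    have h : posN (n + 1) (vtx (n + 1) (pt 1 a)) =
      posN n (vtx n (pt 1 a)) +
      posN n (vtx n (pt 1 a)) := rfl
    rw [h, posN_vtx n a, pow_succ]
    ring

lemma subsingleton_point : ∀ (n : ℕ) (x : (chN n).obj (Od.obj (SimplexCategory.mk 0))),
    x = vtx n (pt 0 0)
  | 0, x => by
    have h : (show ULift.{0} (Fin 1) from x) = ULift.up (0 : Fin 1) := Subsingleton.elim _ _
    exact h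
  | n + 1, c => by
    let c' : NonemptyFiniteChains ((chN n).obj (Od.obj (SimplexCategory.mk 0))) := c
    have h1 : ∀ y, y ∈ c'.finset ↔ y ∈ (single (Q := (chN n).obj (Od.obj (SimplexCategory.mk 0)))
        (vtx n (pt 0 0))).finset := by
      intro y
      rw [mem_single]
      constructor
      · intro _
        exact subsingleton_point n y
      · rintro rfl
        obtain ⟨z, hz⟩ := c'.nonempty
        rwa [← subsingleton_point n z]
    exact NonemptyFiniteChains.ext (Finset.ext h1)

/-- There is a path of length `2 ^ n` along the subdivided interval. -/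
lemma exists_path : ∀ n : ℕ, ∃ x : ℕ → (chN n).obj (Od.obj (SimplexCategory.mk 1)),
    x 0 = vtx n (pt 1 0) ∧
    x (2 ^ n) = vtx n (pt 1 1) ∧
    x 0 ≤ x 1 ∧ ∀ i, x i ≤ x (i + 1) ∨ x (i + 1) ≤ x i
  | 0 => by
    refine ⟨fun i => pt 1 (if i = 0 then (0 : Fin 2) else 1), rfl, rfl, ?_, ?_⟩
    · change (0 : Fin 2) ≤ 1
      decide
    · intro i
      left
      change (if i = 0 then (0 : Fin 2) else 1) ≤ (if i + 1 = 0 then (0 : Fin 2) else 1)
      rw [if_neg (Nat.succ_ne_zero i)]
      exact Fin.le_last _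
  | n + 1 => by
    obtain ⟨x, hx0, hx1, hx2, hx3⟩ := exists_path n
    let Q : PartOrd.{0} := (chN n).obj (Od.obj (SimplexCategory.mk 1))
    have hadj : ∀ i, Adj (Q := Q) (single (Q := Q) (x i)) (x (i + 1)) := by
      intro i z hz
      rw [mem_single] at hz
      rw [hz]
      exact hx3 i
    let y : ℕ → NonemptyFiniteChains Q := fun i =>
      if i % 2 = 0 then single (Q := Q) (x (i / 2)) else
        addElt (single (Q := Q) (x (i / 2))) (x (i / 2 + 1)) (hadj (i / 2))
    refine ⟨y, ?_, ?_, ?_, ?_⟩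
    · have : y 0 = single (Q := Q) (x 0) := rfl
      rw [this, hx0]
      rfl
    · have h1 : 2 ^ (n + 1) % 2 = 0 := by
        rw [pow_succ]
        omega
      have h2 : 2 ^ (n + 1) / 2 = 2 ^ n := by
        rw [pow_succ]
        omega
      have : y (2 ^ (n + 1)) = single (Q := Q) (x (2 ^ n)) := by
        change (if 2 ^ (n + 1) % 2 = 0 then _ else _) = _
        rw [if_pos h1, h2]
      rw [this, hx1]
      rfl
    · change y 0 ≤ y 1
      have h0 : y 0 = single (Q := Q) (x 0) := rfl
      have h1 : y 1 = addElt (single (Q := Q) (x 0)) (x (0 + 1)) (hadj 0) := rfl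
      rw [h0, h1]
      intro z hz
      rw [mem_addElt]
      exact Or.inr hz
    · intro i
      rcases Nat.even_or_odd' i with ⟨j, hj | hj⟩
      · left
        have h0 : y i = single (Q := Q) (x j) := by
          change (if i % 2 = 0 then _ else _) = _
          rw [if_pos (by omega), show i / 2 = j by omega]
        have h1 : y (i + 1) = addElt (single (Q := Q) (x j)) (x (j + 1)) (hadj j) := by
          change (if (i + 1) % 2 = 0 then _ else _) = _
          rw [if_neg (by omega)]
          have : (i + 1) / 2 = j := by omega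
          subst this
          rfl
        change y i ≤ y (i + 1)
        rw [h0, h1]
        intro z hz
        rw [mem_addElt]
        exact Or.inr hz
      · right
        have h0 : y i = addElt (single (Q := Q) (x j)) (x (j + 1)) (hadj j) := by
          change (if i % 2 = 0 then _ else _) = _
          rw [if_neg (by omega)]
          have : i / 2 = j := by omega
          subst this
          rfl
        have h1 : y (i + 1) = single (Q := Q) (x (j + 1)) := by
          change (if (i + 1) % 2 = 0 then _ else _) = _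
          rw [if_pos (by omega), show (i + 1) / 2 = j + 1 by omega]
        change y (i + 1) ≤ y i
        rw [h0, h1]
        intro z hz
        rw [mem_single] at hz
        rw [mem_addElt]
        exact Or.inl hz

/-- A monotone map to a fence which starts at `0` cannot move fast. -/
lemma slow (n : ℕ) (r : ℕ) (G : (chN n).obj (Od.obj (SimplexCategory.mk 1)) ⟶ fenceP r)
    (h0 : ((G.hom (vtx n (pt 1 0))) :
      Fence r).val = 0) :
    ((G.hom (vtx n (pt 1 1))) :
      Fence r).val ≤ 2 ^ n - 1 := by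
  obtain ⟨x, hx0, hx1, hx2, hx3⟩ := exists_path n
  let v : ℕ → ℤ := fun i => (G.hom (x i) : Fence r).val
  have hv0 : v 0 = 0 := by
    change (G.hom (x 0) : Fence r).val = 0
    rw [hx0]
    exact h0
  have hv1 : v 1 = 0 := by
    have h1 : (G.hom (x 0) : Fence r) ≤ (G.hom (x 1) : Fence r) := G.hom.monotone hx2
    rw [Fence.le_iff] at h1
    have h2 : (G.hom (x 0) : Fence r).val = 0 := hv0
    change (G.hom (x 1) : Fence r).val = 0
    omega
  have hstep : ∀ i, v (i + 1) ≤ v i + 1 := by
    intro i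
    change (G.hom (x (i + 1)) : Fence r).val ≤ (G.hom (x i) : Fence r).val + 1
    rcases hx3 i with h | h
    · have h1 : (G.hom (x i) : Fence r) ≤ (G.hom (x (i + 1)) : Fence r) := G.hom.monotone h
      rw [Fence.le_iff] at h1
      omega
    · have h1 : (G.hom (x (i + 1)) : Fence r) ≤ (G.hom (x i) : Fence r) := G.hom.monotone h
      rw [Fence.le_iff] at h1
      omega
  have hall : ∀ i : ℕ, v (i + 1) ≤ i := by
    intro i
    induction i with
    | zero => rw [zero_add, hv1]; simp
    | succ i ih =>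
      have := hstep (i + 1)
      push_cast
      omega
  have h2 : 1 ≤ 2 ^ n := Nat.one_le_two_pow
  have h3 := hall (2 ^ n - 1)
  rw [Nat.sub_add_cancel h2] at h3
  have h4 : ((2 ^ n - 1 : ℕ) : ℤ) = 2 ^ n - 1 := by
    rw [Nat.cast_sub h2]
    push_cast
    rfl
  rw [h4] at h3
  rw [← hx1]
  exact h3

theorem not_hornExt_fence (k r : ℕ) (hr : 2 ^ k ≤ r) : ¬ HornExt (k + 1) (fenceP r) := by
  intro H
  have hpow : (2 : ℤ) ^ (k + 1) ≤ 2 * r := by
    rw [pow_succ]
    have : ((2 ^ k : ℕ) : ℤ) ≤ r := by exact_mod_cast hr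
    push_cast at this
    linarith
  have hpow0 : (2 : ℤ) ≤ 2 ^ (k + 1) := by
    rw [pow_succ]
    have : (1 : ℤ) ≤ 2 ^ k := one_le_pow₀ (by norm_num)
    linarith
  have hpar : (2 : ℤ) ^ (k + 1) % 2 = 0 := by
    rw [pow_succ]
    omega
  let L : PartOrd.{0} := (chN (k + 1)).obj (Od.obj (SimplexCategory.mk 1))
  -- the map on the first edge
  let d2 : L → Fence r := fun x =>
    ⟨max 0 (posN (k + 1) x - 1), le_max_left _ _, by
      have := posN_bounds (k + 1) x
      refine max_le (by positivity) ?_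
      linarith [this.2]⟩
  have hd2 : Monotone d2 := by
    intro x y hxy
    have h1 := posN_mono k x y hxy
    have h2 := posN_bounds (k + 1) x
    have h3 := posN_bounds (k + 1) y
    rw [Fence.le_iff]
    change max 0 (posN (k + 1) x - 1) = max 0 (posN (k + 1) y - 1) ∨
      (max 0 (posN (k + 1) x - 1) % 2 = 1 ∧
        (max 0 (posN (k + 1) y - 1) = max 0 (posN (k + 1) x - 1) + 1 ∨
        max 0 (posN (k + 1) y - 1) = max 0 (posN (k + 1) x - 1) - 1))
    rcases le_total 0 (posN (k + 1) x - 1) with h | h <;>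
    rcases le_total 0 (posN (k + 1) y - 1) with h' | h'
    · rw [max_eq_right h, max_eq_right h']
      omega
    · rw [max_eq_right h, max_eq_left h']
      omega
    · rw [max_eq_left h, max_eq_right h']
      omega
    · rw [max_eq_left h, max_eq_left h']
      omega
  -- the map on the second edge
  let d0 : L → Fence r := fun x =>
    ⟨if posN (k + 1) x = 0 then 2 ^ (k + 1) - 1 else 2 ^ (k + 1), by split_ifs <;> linarith,
      by split_ifs <;> linarith⟩
  have hd0 : Monotone d0 := by
    intro x y hxy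
    have h1 := posN_mono k x y hxy
    have h2 := posN_bounds (k + 1) x
    have h3 := posN_bounds (k + 1) y
    rw [Fence.le_iff]
    change (if posN (k + 1) x = 0 then (2 : ℤ) ^ (k + 1) - 1 else 2 ^ (k + 1)) =
        (if posN (k + 1) y = 0 then 2 ^ (k + 1) - 1 else 2 ^ (k + 1)) ∨
      ((if posN (k + 1) x = 0 then (2 : ℤ) ^ (k + 1) - 1 else 2 ^ (k + 1)) % 2 = 1 ∧
        ((if posN (k + 1) y = 0 then (2 : ℤ) ^ (k + 1) - 1 else 2 ^ (k + 1)) =
          (if posN (k + 1) x = 0 then 2 ^ (k + 1) - 1 else 2 ^ (k + 1)) + 1 ∨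
        (if posN (k + 1) y = 0 then (2 : ℤ) ^ (k + 1) - 1 else 2 ^ (k + 1)) =
          (if posN (k + 1) x = 0 then 2 ^ (k + 1) - 1 else 2 ^ (k + 1)) - 1))
    split_ifs <;> omega
  let D : ∀ j : Fin 3, j ≠ 1 → (L ⟶ fenceP r) := fun j _ =>
    if j = 2 then PartOrd.ofHom ⟨d2, hd2⟩ else PartOrd.ofHom ⟨d0, hd0⟩
  have hcompat : CompatD (k + 1) (fenceP r) (m := 1) (i := 1) D := by
    intro j l hj hl hjl
    have hj0 : j = 0 := by
      revert j l
      decide
    have hl2 : l = 2 := by
      revert j l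
      decide
    subst hj0
    subst hl2
    refine PartOrd.ext (fun z => ?_)
    rw [subsingleton_point (k + 1) z]
    have h1 : ((chN (k + 1)).map (Od.map (SimplexCategory.δ (1 : Fin 2)))).hom
        (vtx (k + 1) (pt 0 0)) =
        vtx (k + 1) (pt 1 0) :=
      vtx_map (k + 1) _ _
    have h2 : ((chN (k + 1)).map (Od.map (SimplexCategory.δ (0 : Fin 2)))).hom
        (vtx (k + 1) (pt 0 0)) =
        vtx (k + 1) (pt 1 1) :=
      vtx_map (k + 1) _ _
    have h3 : d0 (((chN (k + 1)).map (Od.map (SimplexCategory.δ (1 : Fin 2)))).hom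
        (vtx (k + 1) (pt 0 0))) =
      d2 (((chN (k + 1)).map (Od.map (SimplexCategory.δ (0 : Fin 2)))).hom
        (vtx (k + 1) (pt 0 0))) := by
      rw [h1, h2]
      refine Fence.ext ?_
      change (if posN (k + 1) _ = 0 then (2 : ℤ) ^ (k + 1) - 1 else 2 ^ (k + 1)) =
        max 0 (posN (k + 1) _ - 1)
      rw [posN_vtx, posN_vtx]
      rw [if_pos (by simp), max_eq_right]
      · simp
      · simp only [Fin.val_one, Nat.cast_one, mul_one]
        linarith
    exact h3
  obtain ⟨D', hD'⟩ := H 1 1 D hcompat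
  let G : L ⟶ fenceP r := (chN (k + 1)).map (Od.map (SimplexCategory.δ (1 : Fin 3))) ≫ D'
  have hG : ∀ a : Fin 2, G.hom (vtx (k + 1) (pt 1 a)) =
      D'.hom (vtx (k + 1) (pt 2 ((1 : Fin 3).succAbove a))) := by
    intro a
    change D'.hom (((chN (k + 1)).map (Od.map (SimplexCategory.δ (1 : Fin 3)))).hom
      (vtx (k + 1) (pt 1 a))) = _
    rw [vtx_map]
    rfl
  have hD2 : ∀ a : Fin 2, D'.hom (vtx (k + 1) (pt 2 ((2 : Fin 3).succAbove a))) =
      d2 (vtx (k + 1) (pt 1 a)) := by
    intro a
    have h1 := congrArg (fun f : L ⟶ fenceP r =>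
      f.hom (vtx (k + 1) (pt 1 a)))
      (hD' 2 (by decide))
    have h2 : D'.hom (((chN (k + 1)).map (Od.map (SimplexCategory.δ (2 : Fin 3)))).hom
      (vtx (k + 1) (pt 1 a))) =
      d2 (vtx (k + 1) (pt 1 a)) := h1
    rw [vtx_map] at h2
    exact h2
  have hD0 : ∀ a : Fin 2, D'.hom (vtx (k + 1) (pt 2 ((0 : Fin 3).succAbove a))) =
      d0 (vtx (k + 1) (pt 1 a)) := by
    intro a
    have h1 := congrArg (fun f : L ⟶ fenceP r =>
      f.hom (vtx (k + 1) (pt 1 a)))
      (hD' 0 (by decide))
    have h2 : D'.hom (((chN (k + 1)).map (Od.map (SimplexCategory.δ (0 : Fin 3)))).hom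
      (vtx (k + 1) (pt 1 a))) =
      d0 (vtx (k + 1) (pt 1 a)) := h1
    rw [vtx_map] at h2
    exact h2
  have e1 := hD2 0
  have e2 := hD0 1
  have e3 := hG 0
  have e4 := hG 1
  have f1 : (G.hom (vtx (k + 1) (pt 1 0)) :
      Fence r).val = 0 := by
    have : G.hom (vtx (k + 1) (pt 1 0)) =
      d2 (vtx (k + 1) (pt 1 0)) := e3.trans e1
    rw [this]
    change max 0 (posN (k + 1) _ - 1) = 0
    rw [posN_vtx]
    simp
  have f2 : (G.hom (vtx (k + 1) (pt 1 1)) :
      Fence r).val = 2 ^ (k + 1) := by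
    have : G.hom (vtx (k + 1) (pt 1 1)) =
      d0 (vtx (k + 1) (pt 1 1)) := e4.trans e2
    rw [this]
    change (if posN (k + 1) _ = 0 then (2 : ℤ) ^ (k + 1) - 1 else 2 ^ (k + 1)) = 2 ^ (k + 1)
    rw [posN_vtx, if_neg]
    simp
  have := slow (k + 1) r G f1
  rw [f2] at this
  linarith

theorem not_hornExt_zero : ¬ HornExt 0 (PartOrd.of (Fin 2)) := by
  intro H
  let D : ∀ j : Fin 3, j ≠ 0 → (Od.obj (SimplexCategory.mk 1) ⟶ PartOrd.of (Fin 2)) := fun j _ =>
    if j = 2 then PartOrd.ofHom ⟨fun x => x.down, fun _ _ h => h⟩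
    else PartOrd.ofHom ⟨fun _ => 0, fun _ _ _ => le_rfl⟩
  have hcompat : CompatD 0 (PartOrd.of (Fin 2)) (m := 1) (i := 0) D := by
    intro j l hj hl hjl
    have hj0 : j = 1 := by
      revert j l
      decide
    have hl2 : l = 2 := by
      revert j l
      decide
    subst hj0
    subst hl2
    refine PartOrd.ext (fun z => ?_)
    rw [subsingleton_point 0 z]
    rfl
  obtain ⟨D', hD'⟩ := H 1 0 D hcompat
  have h1 := congrArg (fun f : Od.obj (SimplexCategory.mk 1) ⟶ PartOrd.of (Fin 2) =>
    f.hom (pt 1 1)) (hD' 2 (by decide))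
  have h2 := congrArg (fun f : Od.obj (SimplexCategory.mk 1) ⟶ PartOrd.of (Fin 2) =>
    f.hom (pt 1 1)) (hD' 1 (by decide))
  have h3 : D'.hom (pt 2 1) = (1 : Fin 2) := h1
  have h4 : D'.hom (pt 2 2) = (0 : Fin 2) := h2
  have h5 : D'.hom (pt 2 1) ≤ D'.hom (pt 2 2) :=
    D'.hom.monotone (show (1 : Fin 3) ≤ 2 by decide)
  rw [h3, h4] at h5
  exact absurd h5 (by decide)

end Pool.Agent.H351R3
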